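import Pool.Agent.N98.T2.Fin

/-!
Embedded local uniformization along a valuation of a two-dimensional regular local ring.
-/

set_option autoImplicit false
set_option linter.unusedVariables false
set_option linter.unusedSectionVars false

universe u

namespace Pool.Agent.N98.T2

open Pool.Agent.W418.LU2 Polynomial IsLocalRing

variable {E : Type u} [Field E]

/-- The rings which are reached by quadratic transforms along `V`. -/
inductive Re (V : ValuationSubring E) (P0 : Subring E) : Subring E → Prop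
  | base : Re V P0 P0
  | step {P P' : Subring E} {s : E} : Re V P0 P → Nx V P s P' → Re V P0 P'

variable {V : ValuationSubring E} {P P0 W : Subring E} {f x y : E}

lemma Re.mono (h : Re V P0 P) : P0 ≤ P := by
  induction h with
  | base => exact le_rfl
  | step _ hN ih => exact ih.trans hN.le

/-- They are essentially of finite type. -/
lemma Re.eft (h : Re V P0 P) (h0 : ∀ a ∈ P0, a ∈ V) : ∃ G : Finset E, (∀ g ∈ G, g ∈ P) ∧
    Subring.closure ((P0 : Set E) ∪ G) ≤ V.toSubring ∧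
    P ≤ lo V.toSubring (Subring.closure ((P0 : Set E) ∪ G)) := by
  classical
  induction h with
  | base =>
    refine ⟨∅, by simp, ?_, ?_⟩
    · rw [Subring.closure_le]
      rintro a (ha | ha)
      · exact h0 a ha
      · simp at ha
    · intro a ha
      exact le_lo _ _ (Subring.subset_closure (Or.inl ha))
  | @step P P' s hR hN ih =>
    obtain ⟨G, hG, hGV, hGP⟩ := ih
    obtain ⟨y, hp, hw, rfl⟩ := hN
    have hcl : Subring.closure ((P0 : Set E) ∪ G) ≤
        Subring.closure ((P0 : Set E) ∪ (insert (y / s) G : Finset E)) :=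
      Subring.closure_mono (Set.union_subset_union_right _ (by
        rw [Finset.coe_insert]
        exact Set.subset_insert _ _))
    have hV' : Subring.closure ((P0 : Set E) ∪ (insert (y / s) G : Finset E)) ≤
        V.toSubring := by
      rw [Subring.closure_le]
      rintro a (ha | ha)
      · exact h0 a ha
      · rw [Finset.coe_insert] at ha
        rcases ha with rfl | ha
        · exact hw
        · exact hp.le a (hG a ha)
    refine ⟨insert (y / s) G, ?_, hV', ?_⟩
    · intro g hg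
      rcases Finset.mem_insert.1 hg with rfl | hg
      · exact le_lo _ _ (self_mem_bl _ _)
      · exact le_lo _ _ (le_bl _ _ (hG g hg))
    · have h1 : bl P (y / s) ≤
          lo V.toSubring (Subring.closure ((P0 : Set E) ∪ (insert (y / s) G : Finset E))) := by
        refine bl_le (hGP.trans (lo_mono hcl)) (le_lo _ _ (Subring.subset_closure (Or.inr ?_)))
        rw [Finset.coe_insert]
        exact Set.mem_insert _ _
      exact (lo_mono h1).trans (lo_lo' hV').le

/-- The quadratic transform exists. -/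
lemma exists_nx (h : Par V P x y) : ∃ s P', Nx V P s P' ∧
    ((∃ z, Par V P' s z) ∨ Dv V P' s) := by
  rcases div_total (V := V) x y h.x0 with hw | hw
  · exact ⟨x, _, ⟨y, h, hw, rfl⟩, h.blow hw⟩
  · exact ⟨y, _, ⟨x, h.symm, mem_of_lt hw, rfl⟩, h.symm.blow (mem_of_lt hw)⟩

/-- The sequence of the quadratic transforms is infinite or reaches a discrete valuation ring. -/
theorem exists_sq (h : Par V P0 x y) :
    (∃ (P : ℕ → Subring E) (s : ℕ → E), Sq V P s ∧ P 0 = P0 ∧ ∀ n, Re V P0 (P n)) ∨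
    ∃ P s, Re V P0 P ∧ Dv V P s := by
  classical
  by_cases hB : ∃ P s, Re V P0 P ∧ Dv V P s
  · exact Or.inr hB
  left
  let St := {q : Subring E × E // Re V P0 q.1 ∧ ∃ z, Par V q.1 q.2 z}
  have hnext : ∀ q : St, ∃ q' : St, Nx V q.1.1 q'.1.2 q'.1.1 := by
    rintro ⟨⟨P, t⟩, hR, z, hz⟩
    obtain ⟨s, P', hN, h1 | h1⟩ := exists_nx hz
    · exact ⟨⟨⟨P', s⟩, hR.step hN, h1⟩, hN⟩
    · exact absurd ⟨P', s, hR.step hN, h1⟩ hB
  choose nxt hnxt using hnext
  let q0 : St := ⟨⟨P0, x⟩, Re.base, y, h⟩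
  let q : ℕ → St := fun n => nxt^[n] q0
  have hq : ∀ n, q (n + 1) = nxt (q n) := fun n => Function.iterate_succ_apply' nxt n q0
  refine ⟨fun n => (q n).1.1, fun n => (q n).1.2, ⟨fun n => (q n).2.2, fun n => ?_⟩, rfl,
    fun n => (q n).2.1⟩
  have := hnxt (q n)
  rw [← hq] at this
  exact this

section main

variable {k : Type u} [CommRing k] [IsDomain k] [IsNoetherianRing k] [Algebra k E]
  [IsFractionRing k E]

/-- Divisors of a monomial. -/
lemma mono_of_dvd (h : Par V P x y) {a b : E} (ha : a ∈ P) (hb : b ∈ P)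
    (hm : Mo V P x y (a * b)) :
    ∃ u ∈ P, V.valuation u = 1 ∧ ∃ i j : ℕ, a = u * x ^ i * y ^ j := by
  have hU := h.ufm
  obtain ⟨u, hu, hu1, c, d, e⟩ := hm
  -- natural exponents
  obtain ⟨N, c', hc'⟩ : ∃ N c' : ℕ, c + N = c' := ⟨c.natAbs, (c + c.natAbs).toNat, by omega⟩
  obtain ⟨M, d', hd'⟩ : ∃ M d' : ℕ, d + M = d' := ⟨d.natAbs, (d + d.natAbs).toNat, by omega⟩
  have e1 : a * (b * x ^ N * y ^ M) = u * x ^ c' * y ^ d' := by
    have h1 : x ^ c' = x ^ c * x ^ N := by
      rw [← zpow_natCast x c', ← hc', zpow_add₀ h.x0, zpow_natCast]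
    have h2 : y ^ d' = y ^ d * y ^ M := by
      rw [← zpow_natCast y d', ← hd', zpow_add₀ h.y0, zpow_natCast]
    rw [h1, h2]
    linear_combination (x ^ N * y ^ M) * e
  obtain ⟨v, i, j, hv, hv'⟩ := exists_of_dvd h.prime_left h.prime_right
    ((h.isUnit_iff ⟨u, hu⟩).2 hu1) (a := (⟨a, ha⟩ : P))
    (b := ⟨b * x ^ N * y ^ M, P.mul_mem (P.mul_mem hb (P.pow_mem h.xP _)) (P.pow_mem h.yP _)⟩)
    (Subtype.ext e1)
  exact ⟨v, v.2, (h.isUnit_iff v).1 hv, i, j, congrArg Subtype.val hv'⟩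

/-- **Embedded local uniformization** of two-dimensional regular local rings. -/
theorem exists_mono (h0 : Par V P0 x y) (hP0 : ∀ e, e ∈ P0 ↔ ∃ a : k, algebraMap k E a = e)
    (hfin : ∀ (𝔭 : Ideal k) [𝔭.IsPrime], 𝔭 ≠ ⊥ →
      Module.Finite (k ⧸ 𝔭) (integralClosure (k ⧸ 𝔭) (FractionRing (k ⧸ 𝔭))))
    {H : Type} [Finite H] (f : H → E) (hf : ∀ t, f t ≠ 0) :
    ∃ (P : Subring E) (I : Type) (_ : Fintype I) (X : I → E), IsNoetherianRing P ∧
      (∀ a ∈ P, a ∈ V) ∧ P0 ≤ P ∧
      (∃ G : Finset E, (∀ g ∈ G, g ∈ P) ∧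
        P ≤ lo V.toSubring (Subring.closure ((P0 : Set E) ∪ G))) ∧
      RV.RegC P X ∧ ∀ t, ∃ u, u ≠ 0 ∧ u ∈ P ∧ u⁻¹ ∈ P ∧ ∃ γ : I → ℤ,
        f t = u * ∏ i, X i ^ γ i := by
  classical
  have hinj : Function.Injective (algebraMap k E) := IsFractionRing.injective k E
  -- fractions
  choose a b hb hab using fun t => IsFractionRing.div_surjective k (f t)
  have hne : ∀ s : k, s ≠ 0 → algebraMap k E s ≠ 0 := fun s hs h =>
    hs (hinj (h.trans (map_zero _).symm))
  have hb0 : ∀ t, algebraMap k E (b t) ≠ 0 := fun t => hne _ (nonZeroDivisors.ne_zero (hb t))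
  have ha0 : ∀ t, algebraMap k E (a t) ≠ 0 := by
    intro t h1
    apply hf t
    rw [← hab t, h1, zero_div]
  rcases exists_sq h0 with ⟨P, s, hS, hP, hR⟩ | ⟨P, s, hR, hD⟩
  · have := Fintype.ofFinite H
    have hP0' : ∀ e, e ∈ P 0 ↔ ∃ a : k, algebraMap k E a = e := by
      rw [hP]
      exact hP0
    let F : E := ∏ t, (algebraMap k E (a t) * algebraMap k E (b t))
    have hF0 : F ≠ 0 := Finset.prod_ne_zero_iff.2 fun t _ => mul_ne_zero (ha0 t) (hb0 t)
    obtain ⟨n, z, hz, hm⟩ := ev_all hS hP0' hfin F hF0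
    have hkP : ∀ c : k, algebraMap k E c ∈ P n := fun c =>
      hS.mono (Nat.zero_le n) ((hP0' _).2 ⟨c, rfl⟩)
    have hdv : ∀ t, ∃ c ∈ P n, F = algebraMap k E (a t) * algebraMap k E (b t) * c := by
      intro t
      refine ⟨∏ i ∈ Finset.univ.erase t, (algebraMap k E (a i) * algebraMap k E (b i)),
        (P n).prod_mem fun i _ => (P n).mul_mem (hkP _) (hkP _), ?_⟩
      exact (Finset.mul_prod_erase Finset.univ
        (fun i => algebraMap k E (a i) * algebraMap k E (b i)) (Finset.mem_univ t)).symm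
    have hla : ∀ t, ∃ u ∈ P n, V.valuation u = 1 ∧ ∃ i j : ℕ,
        algebraMap k E (a t) = u * s n ^ i * z ^ j := by
      intro t
      obtain ⟨c, hc, e⟩ := hdv t
      refine mono_of_dvd hz (hkP _) (b := algebraMap k E (b t) * c)
        ((P n).mul_mem (hkP _) hc) ?_
      rw [← mul_assoc, ← e]
      exact hm
    have hlb : ∀ t, ∃ u ∈ P n, V.valuation u = 1 ∧ ∃ i j : ℕ,
        algebraMap k E (b t) = u * s n ^ i * z ^ j := by
      intro t
      obtain ⟨c, hc, e⟩ := hdv t
      refine mono_of_dvd hz (hkP _) (b := algebraMap k E (a t) * c)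
        ((P n).mul_mem (hkP _) hc) ?_
      rw [← mul_assoc, mul_comm (algebraMap k E (b t)), ← e]
      exact hm
    have hle0 : ∀ c ∈ P0, c ∈ V := h0.le
    obtain ⟨G, hG1, -, hG2⟩ := (hR n).eft hle0
    refine ⟨P n, Fin 2, inferInstance, ![s n, z], hz.noeth, hz.le, (hR n).mono,
      ⟨G, hG1, hG2⟩, hz.regC, fun t => ?_⟩
    obtain ⟨u, hu, hu1, i, j, e1⟩ := hla t
    obtain ⟨v, hv, hv1, i', j', e2⟩ := hlb t
    have hu0 := ne_zero_of_one hu1
    have hv0 := ne_zero_of_one hv1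
    have hui := hz.inv u hu hu1
    have hvi := hz.inv v hv hv1
    refine ⟨u * v⁻¹, mul_ne_zero hu0 (inv_ne_zero hv0), (P n).mul_mem hu hvi, ?_,
      ![(i : ℤ) - i', (j : ℤ) - j'], ?_⟩
    · rw [mul_inv, inv_inv]
      exact (P n).mul_mem hui hv
    · rw [Fin.prod_univ_two]
      change f t = u * v⁻¹ * (s n ^ ((i : ℤ) - i') * z ^ ((j : ℤ) - j'))
      rw [← hab t, e1, e2, zpow_sub₀ hz.x0, zpow_sub₀ hz.y0, zpow_natCast, zpow_natCast,
        zpow_natCast, zpow_natCast]
      have := hz.x0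
      have := hz.y0
      field_simp
  · obtain ⟨G, hG1, -, hG2⟩ := hR.eft h0.le
    refine ⟨P, Unit, inferInstance, fun _ => s, hD.noeth, hD.le, hR.mono, ⟨G, hG1, hG2⟩,
      hD.regC, fun t => ?_⟩
    have hkP : ∀ c : k, algebraMap k E c ∈ P := fun c => hR.mono ((hP0 _).2 ⟨c, rfl⟩)
    obtain ⟨u, hu, hu1, i, e1⟩ := hD.mono (hkP (a t)) (ha0 t)
    obtain ⟨v, hv, hv1, i', e2⟩ := hD.mono (hkP (b t)) (hb0 t)
    have hu0 := ne_zero_of_one hu1
    have hv0 := ne_zero_of_one hv1
    have hui := hD.inv u hu hu1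
    have hvi := hD.inv v hv hv1
    refine ⟨u * v⁻¹, mul_ne_zero hu0 (inv_ne_zero hv0), P.mul_mem hu hvi, ?_,
      fun _ => (i : ℤ) - i', ?_⟩
    · rw [mul_inv, inv_inv]
      exact P.mul_mem hui hv
    · rw [Fintype.prod_unique]
      rw [← hab t, e1, e2, zpow_sub₀ hD.x0, zpow_natCast, zpow_natCast]
      have := hD.x0
      field_simp

end main

end Pool.Agent.N98.T2
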