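import Pool.Agent.N98.T2.Basic

/-!
Quadratic transforms along a valuation.
-/

set_option autoImplicit false
set_option linter.unusedVariables false
set_option linter.unusedSectionVars false

universe u

namespace Pool.Agent.N98.T2

open Pool.Agent.W418.LU2 Polynomial

variable {E : Type u} [Field E]

/-- The evaluation at `w` of polynomials with coefficients in `P`. -/
noncomputable def ev (P : Subring E) (w : E) : P[X] →+* E := eval₂RingHom P.subtype w

/-- The ring `P[w]`. -/
noncomputable def bl (P : Subring E) (w : E) : Subring E := (ev P w).range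

lemma ev_C (P : Subring E) (w : E) (a : P) : ev P w (C a) = a := by
  change eval₂ P.subtype w (C a) = a
  rw [eval₂_C]
  rfl

lemma ev_X (P : Subring E) (w : E) : ev P w X = w := by
  change eval₂ P.subtype w X = w
  rw [eval₂_X]

lemma ev_sum (P : Subring E) (w : E) (F : P[X]) :
    ev P w F = ∑ i ∈ Finset.range (F.natDegree + 1), (F.coeff i : E) * w ^ i := by
  change eval₂ P.subtype w F = _
  rw [eval₂_eq_sum_range]
  rfl

lemma le_bl (P : Subring E) (w : E) : P ≤ bl P w := fun a ha => ⟨C ⟨a, ha⟩, ev_C P w _⟩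

lemma self_mem_bl (P : Subring E) (w : E) : w ∈ bl P w := ⟨X, ev_X P w⟩

lemma bl_le {P S : Subring E} {w : E} (h : P ≤ S) (hw : w ∈ S) : bl P w ≤ S := by
  rintro _ ⟨F, rfl⟩
  rw [ev_sum]
  exact S.sum_mem fun i _ => S.mul_mem (h (F.coeff i).2) (S.pow_mem hw i)

lemma noeth_bl {P : Subring E} (h : IsNoetherianRing P) (w : E) : IsNoetherianRing (bl P w) :=
  isNoetherianRing_range (ev P w)

lemma noeth_lo {S W : Subring E} (h : IsNoetherianRing S) (hW : Loc W) (hS : S ≤ W) :
    IsNoetherianRing (lo W S) := by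
  obtain ⟨P, hP, -, e, -⟩ := RV.exists_center hW hS
  have h1 : IsNoetherianRing (Localization.AtPrime P) :=
    IsLocalization.isNoetherianRing P.primeCompl _ h
  exact isNoetherianRing_of_ringEquiv _ e

lemma loc_val (V : ValuationSubring E) : Loc V.toSubring := by
  intro a ha
  rcases lt_or_one (V := V) ha with h | h
  · right
    have h1 := val_one_sub h
    exact ⟨ne_zero_of_one h1, inv_mem_of_one h1⟩
  · left
    exact ⟨ne_zero_of_one h, inv_mem_of_one h⟩

variable {V : ValuationSubring E} {P : Subring E} {x y : E}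

/-- A noetherian local ring, dominated by `V`, with the maximal ideal generated by `x`. -/
structure Dv (V : ValuationSubring E) (P : Subring E) (x : E) : Prop where
  le : ∀ a ∈ P, a ∈ V
  inv : ∀ a ∈ P, V.valuation a = 1 → a⁻¹ ∈ P
  noeth : IsNoetherianRing P
  xP : x ∈ P
  xV : V.valuation x < 1
  x0 : x ≠ 0
  gen : ∀ a ∈ P, V.valuation a < 1 → ∃ b ∈ P, a = b * x

section par

variable (h : Par V P x y) (hw : y / x ∈ V)

include h

lemma Par.wx : y / x * x = y := div_mul_cancel₀ _ h.x0

lemma Par.ker_aux (N : ℕ) : ∀ c : ℕ → E, (∀ i, c i ∈ P) →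
    ∑ i ∈ Finset.range (N + 1), c i * (y / x) ^ i = 0 → ∀ i ≤ N, V.valuation (c i) < 1 := by
  induction N with
  | zero =>
    intro c hc h1 i hi
    rw [Finset.sum_range_one, pow_zero, mul_one] at h1
    rw [Nat.le_zero.1 hi, h1, map_zero]
    exact zero_lt_one
  | succ N ih =>
    intro c hc h1
    have hwx := h.wx
    have hx0 := h.x0
    have e1 : c (N + 1) * y ^ (N + 1) =
        (-∑ i ∈ Finset.range (N + 1), c i * (y ^ i * x ^ (N - i))) * x := by
      have h2 : (∑ i ∈ Finset.range (N + 1 + 1), c i * (y / x) ^ i) * x ^ (N + 1) = 0 := by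
        rw [h1, zero_mul]
      rw [Finset.sum_range_succ, add_mul, Finset.sum_mul] at h2
      have h3 : c (N + 1) * (y / x) ^ (N + 1) * x ^ (N + 1) = c (N + 1) * y ^ (N + 1) := by
        rw [mul_assoc, ← mul_pow, hwx]
      have h4 : ∀ i ∈ Finset.range (N + 1), c i * (y / x) ^ i * x ^ (N + 1) =
          c i * (y ^ i * x ^ (N - i)) * x := by
        intro i hi
        have hi' : i ≤ N := Nat.lt_succ_iff.1 (Finset.mem_range.1 hi)
        obtain ⟨j, rfl⟩ := Nat.exists_eq_add_of_le hi'
        rw [Nat.add_sub_cancel_left]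
        have h5 : (y / x) ^ i * x ^ i = y ^ i := by rw [← mul_pow, hwx]
        rw [← h5]
        ring
      rw [h3, Finset.sum_congr rfl h4, ← Finset.sum_mul] at h2
      linear_combination h2
    have hs : -∑ i ∈ Finset.range (N + 1), c i * (y ^ i * x ^ (N - i)) ∈ P :=
      P.neg_mem (P.sum_mem fun i _ => P.mul_mem (hc i) (P.mul_mem (P.pow_mem h.yP _)
        (P.pow_mem h.xP _)))
    rcases h.prime (hc (N + 1)) (P.pow_mem h.yP (N + 1)) hs e1 with ⟨d, hd, h2⟩ | ⟨d, hd, h2⟩
    · have h3 := ih (fun i => c i + if i = N then d * y else 0) (fun i => by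
        split_ifs
        · exact P.add_mem (hc i) (P.mul_mem hd h.yP)
        · rw [add_zero]; exact hc i) (by
        have e2 : ∑ i ∈ Finset.range (N + 1), (c i + if i = N then d * y else 0) * (y / x) ^ i =
            ∑ i ∈ Finset.range (N + 1), c i * (y / x) ^ i + d * y * (y / x) ^ N := by
          rw [← Finset.sum_filter_add_sum_filter_not (Finset.range (N + 1)) (fun i => i = N)]
          rw [← Finset.sum_filter_add_sum_filter_not (Finset.range (N + 1)) (fun i => i = N)
            (fun i => c i * (y / x) ^ i)]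
          have h4 : (Finset.range (N + 1)).filter (fun i => i = N) = {N} := by
            ext i
            simp only [Finset.mem_filter, Finset.mem_range, Finset.mem_singleton]
            omega
          rw [h4, Finset.sum_singleton, Finset.sum_singleton, if_pos rfl]
          have h5 : ∀ i ∈ (Finset.range (N + 1)).filter (fun i => ¬ i = N),
              (c i + if i = N then d * y else 0) * (y / x) ^ i = c i * (y / x) ^ i := by
            intro i hi
            rw [if_neg (Finset.mem_filter.1 hi).2, add_zero]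
          rw [Finset.sum_congr rfl h5]
          ring
        rw [e2]
        rw [Finset.sum_range_succ, h2] at h1
        have e3 : d * y * (y / x) ^ N = d * x * (y / x) ^ (N + 1) := by
          rw [pow_succ]
          field_simp
        rw [e3]
        exact h1)
      intro i hi
      rcases Nat.lt_or_ge i (N + 1) with h4 | h4
      · have h5 := h3 i (by omega)
        split_ifs at h5 with h6
        · have e4 : c i = (c i + d * y) + -(d * y) := by ring
          rw [e4]
          refine val_add_lt h5 ?_
          rw [Valuation.map_neg]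
          exact val_mul_lt_right (h.le d hd) h.yV
        · rwa [add_zero] at h5
      · have : i = N + 1 := by omega
        rw [this, h2]
        exact val_mul_lt_right (h.le d hd) h.xV
    · exact absurd h2 (h.nil _ d hd)

/-- The relations of `y / x` have coefficients in the maximal ideal. -/
theorem Par.ker {F : P[X]} (hF : ev P (y / x) F = 0) (i : ℕ) :
    V.valuation (F.coeff i : E) < 1 := by
  rw [ev_sum] at hF
  rcases Nat.lt_or_ge F.natDegree i with h1 | h1
  · rw [coeff_eq_zero_of_natDegree_lt h1]
    change V.valuation (0 : E) < 1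
    rw [map_zero]
    exact zero_lt_one
  · exact h.ker_aux _ (fun i => F.coeff i) (fun i => (F.coeff i).2) hF i h1

lemma Par.ker' {F G : P[X]} (hF : ev P (y / x) F = x * ev P (y / x) G) (i : ℕ) :
    V.valuation (F.coeff i : E) < 1 := by
  have h1 := h.ker (F := F - C ⟨x, h.xP⟩ * G) (by
    rw [map_sub, map_mul, ev_C, hF]
    exact sub_self _) i
  rw [coeff_sub, coeff_C_mul] at h1
  have e : (F.coeff i : E) = ((F.coeff i - ⟨x, h.xP⟩ * G.coeff i : P) : E) + x * G.coeff i := by
    push_cast
    ring
  rw [e]
  exact val_add_lt h1 (val_mul_lt_left h.xV (h.le _ (G.coeff i).2))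

/-- Elements of the maximal ideal are divisible by `x`. -/
lemma Par.div {a : E} (ha : a ∈ P) (h1 : V.valuation a < 1) : ∃ b ∈ bl P (y / x), a = b * x := by
  obtain ⟨b, hb, c, hc, rfl⟩ := h.gen a ha h1
  refine ⟨b + c * (y / x), (bl P _).add_mem (le_bl _ _ hb) ((bl P _).mul_mem (le_bl _ _ hc)
    (self_mem_bl _ _)), ?_⟩
  have := h.wx
  linear_combination -c * this

lemma Par.div_poly {F : P[X]} (h1 : ∀ i, V.valuation (F.coeff i : E) < 1) :
    ∃ b ∈ bl P (y / x), ev P (y / x) F = b * x := by
  choose b hb hb' using fun i => h.div (F.coeff i).2 (h1 i)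
  refine ⟨∑ i ∈ Finset.range (F.natDegree + 1), b i * (y / x) ^ i,
    (bl P _).sum_mem fun i _ => (bl P _).mul_mem (hb i) ((bl P _).pow_mem (self_mem_bl _ _) _), ?_⟩
  rw [ev_sum, Finset.sum_mul]
  refine Finset.sum_congr rfl fun i _ => ?_
  rw [hb' i]
  ring

include hw

lemma Par.bl_le : bl P (y / x) ≤ V.toSubring := T2.bl_le (fun a ha => h.le a ha) hw

/-- The quadratic transform. -/
theorem Par.blow_of {z : E} (G : P[X]) (hG : G.Monic) (hz : ev P (y / x) G = z)
    (hzV : V.valuation z < 1)
    (hgen : ∀ F : P[X], V.valuation (ev P (y / x) F) < 1 → ∃ b ∈ bl P (y / x),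
      ∃ c ∈ bl P (y / x), ev P (y / x) F = b * x + c * z) :
    Par V (lo V.toSubring (bl P (y / x))) x z where
  le := lo_le (h.bl_le hw)
  inv := fun a ha h1 => inv_mem_lo (h.bl_le hw) ha (ne_zero_of_one h1) (inv_mem_of_one h1)
  noeth := noeth_lo (noeth_bl h.noeth _) (loc_val V) (h.bl_le hw)
  xP := le_lo _ _ (le_bl _ _ h.xP)
  yP := le_lo _ _ ⟨G, hz⟩
  xV := h.xV
  yV := hzV
  x0 := h.x0
  gen := by
    rintro _ ⟨a, ⟨F, rfl⟩, d, hd, hd0, hdV, rfl⟩ h1
    have hd1 : V.valuation d = 1 := one_of_inv (h.bl_le hw hd) hd0 hdV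
    have h2 : V.valuation (ev P (y / x) F) < 1 := by
      rw [map_mul, map_inv₀, hd1, inv_one, mul_one] at h1
      exact h1
    obtain ⟨b, hb, c, hc, h3⟩ := hgen F h2
    have hdi : d⁻¹ ∈ lo V.toSubring (bl P (y / x)) :=
      inv_mem_lo (h.bl_le hw) (le_lo _ _ hd) hd0 hdV
    refine ⟨b * d⁻¹, Subring.mul_mem _ (le_lo _ _ hb) hdi, c * d⁻¹,
      Subring.mul_mem _ (le_lo _ _ hc) hdi, ?_⟩
    rw [h3]
    ring
  nil := by
    rintro n _ ⟨c, ⟨C', rfl⟩, d, ⟨D, rfl⟩, hd0, hdV, rfl⟩ h1
    have hD : ev P (y / x) D ∈ bl P (y / x) := ⟨D, rfl⟩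
    have hd1 : V.valuation (ev P (y / x) D) = 1 := one_of_inv (h.bl_le hw hD) hd0 hdV
    -- the polynomial `D * G ^ n` has coefficients in the maximal ideal
    have h2 : ev P (y / x) (D * G ^ n) = x * ev P (y / x) C' := by
      rw [map_mul, map_pow, hz, h1]
      field_simp
    have h3 := h.ker' h2
    have hloc := h.isLocalRing
    have hmem : ∀ a : P, V.valuation (a : E) < 1 ↔ a ∈ IsLocalRing.maximalIdeal P := by
      intro a
      rw [IsLocalRing.mem_maximalIdeal, mem_nonunits_iff, h.isUnit_iff]
      constructor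
      · intro h4 h5
        rw [h5] at h4
        exact lt_irrefl _ h4
      · intro h4
        exact (lt_or_one (h.le a a.2)).resolve_right h4
    let π := Ideal.Quotient.mk (IsLocalRing.maximalIdeal P)
    have h4 : (D * G ^ n).map π = 0 := by
      ext i
      rw [coeff_map, coeff_zero, Ideal.Quotient.eq_zero_iff_mem, ← hmem]
      exact h3 i
    have h5 : D.map π = 0 := by
      rw [Polynomial.map_mul, Polynomial.map_pow] at h4
      exact (Monic.mul_left_eq_zero_iff ((hG.map π).pow n)).1 h4
    have h6 : ∀ i, V.valuation (D.coeff i : E) < 1 := by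
      intro i
      rw [hmem, ← Ideal.Quotient.eq_zero_iff_mem]
      have := congrArg (fun p => Polynomial.coeff p i) h5
      simpa using this
    have h7 : V.valuation (ev P (y / x) D) < 1 := by
      rw [ev_sum]
      exact val_sum_lt _ _ fun i _ => val_mul_lt_left (h6 i) (V.toSubring.pow_mem hw i)
    rw [hd1] at h7
    exact lt_irrefl _ h7

/-- The quadratic transform, at the intersection with the strict transform of `y`. -/
theorem Par.blow_self (h1 : V.valuation (y / x) < 1) :
    Par V (lo V.toSubring (bl P (y / x))) x (y / x) := by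
  refine h.blow_of hw X monic_X (ev_X _ _) h1 fun F hF => ?_
  have e : ev P (y / x) F = ev P (y / x) F.divX * (y / x) + F.coeff 0 := by
    conv_lhs => rw [← F.divX_mul_X_add]
    rw [map_add, map_mul, ev_X, ev_C]
  have h2 : V.valuation (F.coeff 0 : E) < 1 := by
    have e2 : (F.coeff 0 : E) = ev P (y / x) F + -(ev P (y / x) F.divX * (y / x)) := by
      rw [e]; ring
    rw [e2]
    refine val_add_lt hF ?_
    rw [Valuation.map_neg]
    exact val_mul_lt_right (h.bl_le hw ⟨_, rfl⟩) h1
  obtain ⟨b, hb, hb'⟩ := h.div (F.coeff 0).2 h2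
  exact ⟨b, hb, _, ⟨F.divX, rfl⟩, by rw [e, hb']; ring⟩

/-- The quadratic transform is two-dimensional or a discrete valuation ring. -/
theorem Par.blow : (∃ z, Par V (lo V.toSubring (bl P (y / x))) x z) ∨
    Dv V (lo V.toSubring (bl P (y / x))) x := by
  classical
  let S : Set P[X] := {F | V.valuation (ev P (y / x) F) < 1 ∧
    ∃ i, V.valuation (F.coeff i : E) = 1}
  by_cases hS : S.Nonempty
  · left
    -- an element of minimal degree
    obtain ⟨G, ⟨hG1, i, hGi⟩, hGmin⟩ : ∃ G ∈ S, ∀ F ∈ S, G.natDegree ≤ F.natDegree := by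
      obtain ⟨G, hG, h1⟩ := WellFounded.has_min (measure (fun F : P[X] => F.natDegree)).wf S hS
      exact ⟨G, hG, fun F hF => not_lt.1 (h1 F hF)⟩
    have hlead : V.valuation (G.leadingCoeff : E) = 1 := by
      by_contra hcon
      have hlt : V.valuation (G.leadingCoeff : E) < 1 :=
        (lt_or_one (h.le _ (G.leadingCoeff).2)).resolve_right hcon
      have hi : i ≠ G.natDegree := by
        rintro rfl
        exact hcon hGi
      have h1 : G.eraseLead ∈ S := by
        refine ⟨?_, i, ?_⟩
        · have e : ev P (y / x) G.eraseLead =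
              ev P (y / x) G + -(G.leadingCoeff * (y / x) ^ G.natDegree) := by
            have h2 := congrArg (ev P (y / x)) G.eraseLead_add_C_mul_X_pow
            rw [map_add, map_mul, map_pow, ev_X, ev_C] at h2
            rw [← h2]
            ring
          rw [e]
          refine val_add_lt hG1 ?_
          rw [Valuation.map_neg]
          exact val_mul_lt_left hlt (V.toSubring.pow_mem hw _)
        · rw [eraseLead_coeff_of_ne i hi]
          exact hGi
      have h2 := hGmin _ h1
      have hi2 : i ≤ G.natDegree := by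
        by_contra h3
        rw [coeff_eq_zero_of_natDegree_lt (not_le.1 h3)] at hGi
        change V.valuation (0 : E) = 1 at hGi
        rw [map_zero] at hGi
        exact zero_ne_one hGi
      have h3 := eraseLead_natDegree_le G
      have h4 : G.natDegree = 0 := by omega
      omega
    -- a monic polynomial
    have hu : IsUnit G.leadingCoeff := (h.isUnit_iff _).2 hlead
    obtain ⟨c, hc⟩ := hu.exists_left_inv
    let G' := C c * G
    have hG'm : G'.Monic := by
      have h1 : G'.coeff G.natDegree = 1 := by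
        change (C c * G).coeff G.natDegree = 1
        rw [coeff_C_mul]
        exact hc
      have h2 : G'.natDegree ≤ G.natDegree := natDegree_C_mul_le _ _
      have : Nontrivial P := h.isLocalRing.toNontrivial
      have h3 : G'.natDegree = G.natDegree := by
        apply le_antisymm h2
        apply le_natDegree_of_ne_zero
        rw [h1]
        exact one_ne_zero
      unfold Polynomial.Monic Polynomial.leadingCoeff
      rw [h3, h1]
    have hG'd : G'.natDegree ≤ G.natDegree := natDegree_C_mul_le _ _
    have hG'V : V.valuation (ev P (y / x) G') < 1 := by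
      change V.valuation (ev P (y / x) (C c * G)) < 1
      rw [map_mul, ev_C]
      exact val_mul_lt_right (h.le _ c.2) hG1
    refine ⟨ev P (y / x) G', h.blow_of hw G' hG'm rfl hG'V fun F hF => ?_⟩
    have hR : ∀ i, V.valuation ((F %ₘ G').coeff i : E) < 1 := by
      by_contra hcon
      push Not at hcon
      obtain ⟨j, hj⟩ := hcon
      have hj' : V.valuation ((F %ₘ G').coeff j : E) = 1 :=
        (lt_or_one (h.le _ ((F %ₘ G').coeff j).2)).resolve_left (not_lt.2 hj)
      have h1 : F %ₘ G' ∈ S := by
        refine ⟨?_, j, hj'⟩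
        have e : ev P (y / x) (F %ₘ G') =
            ev P (y / x) F + -(ev P (y / x) G' * ev P (y / x) (F /ₘ G')) := by
          have h2 := congrArg (ev P (y / x)) (modByMonic_add_div F G')
          rw [map_add, map_mul] at h2
          rw [← h2]
          ring
        rw [e]
        refine val_add_lt hF ?_
        rw [Valuation.map_neg]
        exact val_mul_lt_left hG'V (h.bl_le hw ⟨_, rfl⟩)
      have h2 := hGmin _ h1
      have hne : G' ≠ 1 := by
        intro h3
        rw [h3, map_one, map_one] at hG'V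
        exact lt_irrefl _ hG'V
      have h3 := natDegree_modByMonic_lt F hG'm hne
      omega
    obtain ⟨b, hb, hb'⟩ := h.div_poly hR
    refine ⟨b, hb, ev P (y / x) (F /ₘ G'), ⟨_, rfl⟩, ?_⟩
    have h2 := congrArg (ev P (y / x)) (modByMonic_add_div F G')
    rw [map_add, map_mul, hb'] at h2
    rw [← h2]
    ring
  · right
    refine ⟨lo_le (h.bl_le hw), fun a ha h1 => inv_mem_lo (h.bl_le hw) ha (ne_zero_of_one h1)
      (inv_mem_of_one h1), noeth_lo (noeth_bl h.noeth _) (loc_val V) (h.bl_le hw),
      le_lo _ _ (le_bl _ _ h.xP), h.xV, h.x0, ?_⟩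
    rintro _ ⟨a, ⟨F, rfl⟩, d, hd, hd0, hdV, rfl⟩ h1
    have hd1 : V.valuation d = 1 := one_of_inv (h.bl_le hw hd) hd0 hdV
    have h2 : V.valuation (ev P (y / x) F) < 1 := by
      rw [map_mul, map_inv₀, hd1, inv_one, mul_one] at h1
      exact h1
    obtain ⟨b, hb, hb'⟩ := h.div_poly (F := F) (by
      intro i
      refine (lt_or_one (h.le _ (F.coeff i).2)).resolve_right fun h3 => hS ⟨F, h2, i, h3⟩)
    have hdi : d⁻¹ ∈ lo V.toSubring (bl P (y / x)) :=
      inv_mem_lo (h.bl_le hw) (le_lo _ _ hd) hd0 hdV
    exact ⟨b * d⁻¹, Subring.mul_mem _ (le_lo _ _ hb) hdi, by rw [hb']; ring⟩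

end par

end Pool.Agent.N98.T2
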