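import Pool.Agent.N98.RV.Snc

/-!
Two-dimensional regular local rings in a field, dominated by a valuation ring.
-/

set_option autoImplicit false
set_option linter.unusedVariables false
set_option linter.unusedSectionVars false

universe u

namespace Pool.Agent.N98.T2

open Pool.Agent.W418.LU2

variable {E : Type u} [Field E]

/-- `P` is a two-dimensional regular local ring with the regular system of parameters `x`, `y`,
dominated by the valuation ring `V`. -/
structure Par (V : ValuationSubring E) (P : Subring E) (x y : E) : Prop where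
  le : ∀ a ∈ P, a ∈ V
  inv : ∀ a ∈ P, V.valuation a = 1 → a⁻¹ ∈ P
  noeth : IsNoetherianRing P
  xP : x ∈ P
  yP : y ∈ P
  xV : V.valuation x < 1
  yV : V.valuation y < 1
  x0 : x ≠ 0
  gen : ∀ a ∈ P, V.valuation a < 1 → ∃ b ∈ P, ∃ c ∈ P, a = b * x + c * y
  nil : ∀ n : ℕ, ∀ c ∈ P, y ^ n ≠ c * x

variable {V : ValuationSubring E} {P : Subring E} {x y : E}

lemma one_of_inv {a : E} (ha : a ∈ V) (h0 : a ≠ 0) (h1 : a⁻¹ ∈ V) : V.valuation a = 1 := by
  apply le_antisymm ((V.valuation_le_one_iff a).2 ha)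
  rw [← V.valuation_le_one_iff, map_inv₀] at h1
  have h2 : V.valuation a ≠ 0 := (Valuation.ne_zero_iff _).2 h0
  exact (inv_le_one₀ (zero_lt_iff.2 h2)).1 h1

lemma ne_zero_of_one {a : E} (h : V.valuation a = 1) : a ≠ 0 := by
  rintro rfl
  rw [map_zero] at h
  exact zero_ne_one h

lemma inv_mem_of_one {a : E} (h : V.valuation a = 1) : a⁻¹ ∈ V := by
  rw [← V.valuation_le_one_iff, map_inv₀, h, inv_one]

lemma val_inv_one {a : E} (h : V.valuation a = 1) : V.valuation a⁻¹ = 1 := by
  rw [map_inv₀, h, inv_one]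

lemma val_one_sub {a : E} (h : V.valuation a < 1) : V.valuation (1 - a) = 1 :=
  Valuation.map_one_sub_of_lt _ h

lemma lt_or_one {a : E} (ha : a ∈ V) : V.valuation a < 1 ∨ V.valuation a = 1 :=
  lt_or_eq_of_le ((V.valuation_le_one_iff a).2 ha)

lemma val_mul_lt_left {a b : E} (ha : V.valuation a < 1) (hb : b ∈ V) :
    V.valuation (a * b) < 1 := by
  rw [map_mul]
  exact mul_lt_one_of_lt_of_le ha ((V.valuation_le_one_iff b).2 hb)

lemma val_mul_lt_right {a b : E} (ha : a ∈ V) (hb : V.valuation b < 1) :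
    V.valuation (a * b) < 1 := by
  rw [mul_comm]
  exact val_mul_lt_left hb ha

lemma val_add_lt {a b : E} (ha : V.valuation a < 1) (hb : V.valuation b < 1) :
    V.valuation (a + b) < 1 := Valuation.map_add_lt _ ha hb

lemma val_sum_lt {ι : Type*} (s : Finset ι) (f : ι → E) (h : ∀ i ∈ s, V.valuation (f i) < 1) :
    V.valuation (∑ i ∈ s, f i) < 1 := by
  classical
  induction s using Finset.induction_on with
  | empty => rw [Finset.sum_empty, map_zero]; exact zero_lt_one
  | insert a s ha ih =>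
    rw [Finset.sum_insert ha]
    exact val_add_lt (h a (Finset.mem_insert_self a s))
      (ih fun i hi => h i (Finset.mem_insert_of_mem hi))

section par

variable (h : Par V P x y)

include h

lemma Par.y0 : y ≠ 0 := by
  rintro rfl
  exact h.nil 1 0 P.zero_mem (by ring)

lemma Par.lt_of_mul {b c : E} (hb : b ∈ P) (hc : c ∈ P) : V.valuation (b * x + c * y) < 1 :=
  val_add_lt (val_mul_lt_right (h.le b hb) h.xV) (val_mul_lt_right (h.le c hc) h.yV)

/-- Elements modulo `x`. -/
theorem Par.rep {a : E} (ha : a ∈ P) (hax : ∀ c ∈ P, a ≠ c * x) :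
    ∃ n : ℕ, ∃ u ∈ P, V.valuation u = 1 ∧ ∃ c ∈ P, a = u * y ^ n + c * x := by
  have hN := h.noeth
  let X : P := ⟨x, h.xP⟩
  have key : ∀ (I : Ideal P) (a : E) (ha : a ∈ P), (∀ c ∈ P, a ≠ c * x) →
      I = Ideal.span {X, ⟨a, ha⟩} →
      ∃ n : ℕ, ∃ u ∈ P, V.valuation u = 1 ∧ ∃ c ∈ P, a = u * y ^ n + c * x := by
    intro I
    induction I using WellFoundedGT.induction with
    | ind I ih =>
      intro a ha hax hI
      rcases lt_or_one (h.le a ha) with h1 | h1
      · obtain ⟨b, hb, c, hc, rfl⟩ := h.gen a ha h1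
        have hcx : ∀ d ∈ P, c ≠ d * x := by
          rintro d hd rfl
          exact hax (b + d * y) (P.add_mem hb (P.mul_mem hd h.yP)) (by ring)
        have hle : I ≤ Ideal.span {X, ⟨c, hc⟩} := by
          rw [hI, Ideal.span_le]
          rintro z (rfl | hz)
          · exact Ideal.subset_span (Or.inl rfl)
          · rw [Set.mem_singleton_iff.1 hz]
            refine Ideal.mem_span_pair.2 ⟨⟨b, hb⟩, ⟨y, h.yP⟩, Subtype.ext ?_⟩
            change b * x + y * c = b * x + c * y
            ring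
        rcases lt_or_eq_of_le hle with h2 | h2
        · obtain ⟨n, u, hu, hu1, d, hd, hc'⟩ := ih _ h2 c hc hcx rfl
          refine ⟨n + 1, u, hu, hu1, b + d * y, P.add_mem hb (P.mul_mem hd h.yP), ?_⟩
          rw [hc']
          ring
        · exfalso
          have h3 : (⟨c, hc⟩ : P) ∈ I := by
            rw [h2]
            exact Ideal.subset_span (Or.inr rfl)
          rw [hI] at h3
          obtain ⟨e, d, hed⟩ := Ideal.mem_span_pair.1 h3
          have h4 : (e : E) * x + d * (b * x + c * y) = c := congrArg Subtype.val hed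
          have h5 : V.valuation (1 - (d : E) * y) = 1 :=
            val_one_sub (val_mul_lt_right (h.le d d.2) h.yV)
          have h6 : (1 - (d : E) * y)⁻¹ ∈ P :=
            h.inv _ (P.sub_mem P.one_mem (P.mul_mem d.2 h.yP)) h5
          have h7 := ne_zero_of_one h5
          refine hcx ((1 - (d : E) * y)⁻¹ * (e + d * b)) (P.mul_mem h6 (P.add_mem e.2
            (P.mul_mem d.2 hb))) ?_
          have h8 : c * (1 - (d : E) * y) = (e + d * b) * x := by
            linear_combination -h4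
          field_simp
          linear_combination h8
      · exact ⟨0, a, ha, h1, 0, P.zero_mem, by ring⟩
  exact key _ a ha hax rfl

/-- `x` is a prime element. -/
theorem Par.prime {a b : E} (ha : a ∈ P) (hb : b ∈ P) {c : E} (hc : c ∈ P) (hab : a * b = c * x) :
    (∃ d ∈ P, a = d * x) ∨ ∃ d ∈ P, b = d * x := by
  by_contra hcon
  push Not at hcon
  obtain ⟨h1, h2⟩ := hcon
  obtain ⟨n, u, hu, hu1, d, hd, rfl⟩ := h.rep ha h1
  obtain ⟨m, v, hv, hv1, e, he, rfl⟩ := h.rep hb h2
  have huv : V.valuation (u * v) = 1 := by rw [map_mul, hu1, hv1, one_mul]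
  have h3 := ne_zero_of_one huv
  have h4 : (u * v)⁻¹ ∈ P := h.inv _ (P.mul_mem hu hv) huv
  have hyn : ∀ n, y ^ n ∈ P := fun n => P.pow_mem h.yP n
  refine h.nil (n + m) ((u * v)⁻¹ * (c - (u * y ^ n * e + d * v * y ^ m + d * x * e)))
    (P.mul_mem h4 (P.sub_mem hc (P.add_mem (P.add_mem (P.mul_mem (P.mul_mem hu (hyn n)) he)
      (P.mul_mem (P.mul_mem hd hv) (hyn m))) (P.mul_mem (P.mul_mem hd h.xP) he)))) ?_
  have h5 : u * v * y ^ (n + m) =
      (c - (u * y ^ n * e + d * v * y ^ m + d * x * e)) * x := by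
    rw [pow_add]
    linear_combination hab
  rw [mul_assoc, ← h5, ← mul_assoc, inv_mul_cancel₀ h3, one_mul]

/-- The powers of `x` are not divisible by `y`. -/
theorem Par.nil' (n : ℕ) : ∀ c ∈ P, x ^ n ≠ c * y := by
  induction n with
  | zero =>
    intro c hc h1
    have h2 : V.valuation (c * y) < 1 := val_mul_lt_right (h.le c hc) h.yV
    rw [← h1, pow_zero, map_one] at h2
    exact lt_irrefl _ h2
  | succ n ih =>
    intro c hc h1
    rcases h.prime hc h.yP (P.pow_mem h.xP n) (by rw [← h1, pow_succ]) with ⟨d, hd, rfl⟩ |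
      ⟨d, hd, h2⟩
    · refine ih d hd ?_
      have h3 := h.x0
      have h4 : x * x ^ n = x * (d * y) := by
        rw [← pow_succ', h1]; ring
      exact mul_left_cancel₀ h3 h4
    · exact h.nil 1 d hd (by rw [pow_one]; exact h2)

theorem Par.symm : Par V P y x where
  le := h.le
  inv := h.inv
  noeth := h.noeth
  xP := h.yP
  yP := h.xP
  xV := h.yV
  yV := h.xV
  x0 := h.y0
  gen := by
    intro a ha h1
    obtain ⟨b, hb, c, hc, rfl⟩ := h.gen a ha h1
    exact ⟨c, hc, b, hb, by ring⟩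
  nil := h.nil'

/-- Change of the parameters. -/
theorem Par.change {b c : E} (hb : b ∈ P) (hc : c ∈ P) (hc1 : V.valuation c = 1) :
    Par V P x (b * x + c * y) where
  le := h.le
  inv := h.inv
  noeth := h.noeth
  xP := h.xP
  yP := P.add_mem (P.mul_mem hb h.xP) (P.mul_mem hc h.yP)
  xV := h.xV
  yV := h.lt_of_mul hb hc
  x0 := h.x0
  gen := by
    intro a ha h1
    obtain ⟨d, hd, e, he, rfl⟩ := h.gen a ha h1
    have hc0 := ne_zero_of_one hc1
    have hci := h.inv c hc hc1
    refine ⟨d - e * c⁻¹ * b, P.sub_mem hd (P.mul_mem (P.mul_mem he hci) hb), e * c⁻¹,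
      P.mul_mem he hci, ?_⟩
    field_simp
    ring
  nil := by
    intro n d hd h1
    have hc0 := ne_zero_of_one hc1
    have hci := h.inv c hc hc1
    let X : P := ⟨x, h.xP⟩
    let Y : P := ⟨y, h.yP⟩
    let B : P := ⟨b, hb⟩
    let C : P := ⟨c, hc⟩
    obtain ⟨e, he⟩ : (B * X + C * Y) - C * Y ∣ (B * X + C * Y) ^ n - (C * Y) ^ n :=
      sub_dvd_pow_sub_pow _ _ _
    have he' : (b * x + c * y) ^ n - (c * y) ^ n = (b * x + c * y - c * y) * e :=
      congrArg Subtype.val he
    rw [h1] at he'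
    refine h.nil n (c⁻¹ ^ n * (d - b * e)) (P.mul_mem (P.pow_mem hci n) (P.sub_mem hd
      (P.mul_mem hb e.2))) ?_
    have h2 : c ^ n * y ^ n = (d - b * e) * x := by
      rw [← mul_pow]
      linear_combination -he'
    have h3 : y ^ n = c⁻¹ ^ n * (c ^ n * y ^ n) := by
      rw [← mul_assoc, ← mul_pow, inv_mul_cancel₀ hc0, one_pow, one_mul]
    rw [h3, h2]
    ring

lemma Par.unit_right {c : E} (hc : c ∈ P) (hc1 : V.valuation c = 1) : Par V P x (c * y) := by
  have h1 := h.change P.zero_mem hc hc1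
  rwa [zero_mul, zero_add] at h1

lemma Par.unit_left {c : E} (hc : c ∈ P) (hc1 : V.valuation c = 1) : Par V P (c * x) y :=
  (h.symm.unit_right hc hc1).symm

/-- `x` does not divide `y`. -/
lemma Par.not_dvd {c : E} (hc : c ∈ P) : y ≠ c * x := by
  have := h.nil 1 c hc
  rwa [pow_one] at this

lemma Par.prime_left : Prime (⟨x, h.xP⟩ : P) := by
  refine ⟨fun h0 => h.x0 (congrArg Subtype.val h0), ?_, ?_⟩
  · intro hu
    obtain ⟨c, hc⟩ := isUnit_iff_exists_inv.1 hu
    have h1 : x * c = 1 := congrArg Subtype.val hc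
    have h2 : V.valuation (x * c) < 1 := val_mul_lt_left h.xV (h.le c c.2)
    rw [h1, map_one] at h2
    exact lt_irrefl _ h2
  · rintro a b ⟨c, hc⟩
    have h1 : (a : E) * b = x * c := congrArg Subtype.val hc
    rcases h.prime a.2 b.2 c.2 (by rw [h1, mul_comm]) with ⟨d, hd, h2⟩ | ⟨d, hd, h2⟩
    · exact Or.inl ⟨⟨d, hd⟩, Subtype.ext (by rw [h2, mul_comm]; rfl)⟩
    · exact Or.inr ⟨⟨d, hd⟩, Subtype.ext (by rw [h2, mul_comm]; rfl)⟩

lemma Par.prime_right : Prime (⟨y, h.yP⟩ : P) := h.symm.prime_left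

lemma Par.isUnit_iff (a : P) : IsUnit a ↔ V.valuation (a : E) = 1 := by
  constructor
  · intro hu
    obtain ⟨c, hc⟩ := isUnit_iff_exists_inv.1 hu
    have h1 : (a : E) * c = 1 := congrArg Subtype.val hc
    have h2 : (a : E) ≠ 0 := left_ne_zero_of_mul_eq_one h1
    refine one_of_inv (h.le a a.2) h2 ?_
    rw [← eq_inv_of_mul_eq_one_right h1]
    exact h.le c c.2
  · intro h1
    exact isUnit_iff_exists_inv.2 ⟨⟨_, h.inv a a.2 h1⟩, Subtype.ext
      (mul_inv_cancel₀ (ne_zero_of_one h1))⟩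

lemma Par.isLocalRing : IsLocalRing P := by
  refine IsLocalRing.of_isUnit_or_isUnit_one_sub_self fun a => ?_
  rcases lt_or_one (h.le a a.2) with h1 | h1
  · right
    rw [h.isUnit_iff]
    exact val_one_sub h1
  · left
    rw [h.isUnit_iff]
    exact h1

end par

end Pool.Agent.N98.T2
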