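import Pool.Agent.N98.T2.Curve

/-!
Strict transforms of curves: the centres of the valuation ring of a curve.
-/

set_option autoImplicit false
set_option linter.unusedVariables false
set_option linter.unusedSectionVars false

universe u

namespace Pool.Agent.N98.T2

open Pool.Agent.W418.LU2 Polynomial

variable {E : Type u} [Field E] {V Q : ValuationSubring E} {P P' : Subring E} {s z f g x y : E}

/-- The centre of `Q` on `P` is the divisor with the equation `g`. -/
structure Cen (Q : ValuationSubring E) (P : Subring E) (g : E) : Prop where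
  le : ∀ a ∈ P, a ∈ Q
  gP : g ∈ P
  gQ : Q.valuation g < 1
  g0 : g ≠ 0
  gen : ∀ a ∈ P, Q.valuation a < 1 → ∃ b ∈ P, a = b * g
  frac : ∀ e ∈ Q, ∃ a ∈ P, ∃ b ∈ P, Q.valuation b = 1 ∧ e = a * b⁻¹

lemma not_isUnit_of_lt {P : Subring E} {Q : ValuationSubring E} (hle : ∀ a ∈ P, a ∈ Q) {a : P}
    (h : Q.valuation (a : E) < 1) : ¬ IsUnit a := by
  intro hu
  obtain ⟨c, hc⟩ := isUnit_iff_exists_inv.1 hu
  have h1 : (a : E) * c = 1 := congrArg Subtype.val hc
  have h2 : Q.valuation ((a : E) * c) < 1 := val_mul_lt_left h (hle c c.2)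
  rw [h1, map_one] at h2
  exact lt_irrefl _ h2

lemma Cen.prime (h : Cen Q P g) : Prime (⟨g, h.gP⟩ : P) := by
  refine ⟨fun h0 => h.g0 (congrArg Subtype.val h0), not_isUnit_of_lt h.le h.gQ, ?_⟩
  rintro a b ⟨c, hc⟩
  have h1 : (a : E) * b = g * c := congrArg Subtype.val hc
  have h2 : Q.valuation ((a : E) * b) < 1 := by
    rw [h1]
    exact val_mul_lt_left h.gQ (h.le c c.2)
  rcases lt_or_one (h.le a a.2) with h3 | h3
  · obtain ⟨d, hd, e⟩ := h.gen a a.2 h3
    exact Or.inl ⟨⟨d, hd⟩, Subtype.ext (by rw [e, mul_comm]; rfl)⟩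
  · rcases lt_or_one (h.le b b.2) with h4 | h4
    · obtain ⟨d, hd, e⟩ := h.gen b b.2 h4
      exact Or.inr ⟨⟨d, hd⟩, Subtype.ext (by rw [e, mul_comm]; rfl)⟩
    · rw [map_mul, h3, h4, one_mul] at h2
      exact absurd h2 (lt_irrefl _)

/-- The local ring of a prime element. -/
def atq (P : Subring E) (q : P) (hq : Prime q) : Subring E where
  carrier := {e | ∃ a b : P, ¬ q ∣ b ∧ e = a * (b : E)⁻¹}
  mul_mem' := by
    rintro _ _ ⟨a, b, hb, rfl⟩ ⟨c, d, hd, rfl⟩
    refine ⟨a * c, b * d, fun h => ?_, ?_⟩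
    · rcases hq.dvd_or_dvd h with h | h
      · exact hb h
      · exact hd h
    · push_cast
      rw [mul_inv]
      ring
  one_mem' := ⟨1, 1, fun h => hq.not_isUnit (isUnit_of_dvd_one h), by simp⟩
  add_mem' := by
    rintro _ _ ⟨a, b, hb, rfl⟩ ⟨c, d, hd, rfl⟩
    have hb0 : (b : E) ≠ 0 := by
      intro h0
      apply hb
      have : b = 0 := Subtype.ext h0
      rw [this]
      exact dvd_zero _
    have hd0 : (d : E) ≠ 0 := by
      intro h0
      apply hd
      have : d = 0 := Subtype.ext h0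
      rw [this]
      exact dvd_zero _
    refine ⟨a * d + c * b, b * d, fun h => ?_, ?_⟩
    · rcases hq.dvd_or_dvd h with h | h
      · exact hb h
      · exact hd h
    · push_cast
      field_simp
  zero_mem' := ⟨0, 1, fun h => hq.not_isUnit (isUnit_of_dvd_one h), by simp⟩
  neg_mem' := by
    rintro _ ⟨a, b, hb, rfl⟩
    exact ⟨-a, b, hb, by push_cast; ring⟩

lemma mem_atq {P : Subring E} {q : P} {hq : Prime q} {e : E} :
    e ∈ atq P q hq ↔ ∃ a b : P, ¬ q ∣ b ∧ e = a * (b : E)⁻¹ := Iff.rfl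

lemma le_atq (P : Subring E) (q : P) (hq : Prime q) : P ≤ atq P q hq := fun a ha =>
  ⟨⟨a, ha⟩, 1, fun h => hq.not_isUnit (isUnit_of_dvd_one h), by simp⟩

/-- Maximality of `Q`. -/
lemma Cen.max (hC : Cen Q P g) {T : Subring E} (hT : ∀ e ∈ Q, e ∈ T) (hg : g⁻¹ ∉ T) :
    ∀ t ∈ T, t ∈ Q := by
  intro t ht
  by_contra hQ
  have h1 : t⁻¹ ∈ Q := (Q.mem_or_inv_mem t).resolve_left hQ
  have ht0 : t ≠ 0 := by
    rintro rfl
    exact hQ Q.zero_mem
  have h2 : Q.valuation t⁻¹ < 1 := by
    refine (lt_or_one h1).resolve_right fun h3 => hQ ?_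
    have := inv_mem_of_one h3
    rwa [inv_inv] at this
  obtain ⟨a, ha, b, hb, hb1, e1⟩ := hC.frac _ h1
  have hb0 := ne_zero_of_one hb1
  have h3 : Q.valuation a < 1 := by
    rw [e1, map_mul, map_inv₀, hb1, inv_one, mul_one] at h2
    exact h2
  obtain ⟨c, hc, rfl⟩ := hC.gen a ha h3
  have e2 : g⁻¹ = t * c * b⁻¹ := by
    have h4 : c * g * b⁻¹ * t = 1 := by rw [← e1, inv_mul_cancel₀ ht0]
    have hg0 := hC.g0
    field_simp
    field_simp at h4
    linear_combination -h4
  apply hg
  rw [e2]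
  exact T.mul_mem (T.mul_mem ht (hT c (hC.le c hc))) (hT _ (inv_mem_of_one hb1))

/-- The divisors of the total transform which are not exceptional. -/
theorem Cen.key (h : Par V P x y) (hC : Cen Q P g) (hle : P ≤ P') (hs : s ∈ P)
    (hsV : V.valuation s < 1) (q : P') (hq : Prime q) (hqg : q ∣ ⟨g, hle hC.gP⟩)
    (hqs : ¬ q ∣ ⟨s, hle hs⟩) : (∀ a ∈ P', a ∈ Q) ∧ Q.valuation (q : E) < 1 := by
  have h1 : ∀ a : P, q ∣ Subring.inclusion hle a → ∃ b ∈ P, (a : E) = b * g := by
    let 𝔮 : Ideal P := (Ideal.span {q}).comap (Subring.inclusion hle)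
    have hqp : (Ideal.span {q}).IsPrime := (Ideal.span_singleton_prime hq.ne_zero).2 hq
    have h𝔮 : 𝔮.IsPrime := Ideal.IsPrime.comap _
    have hmem : ∀ a : P, a ∈ 𝔮 ↔ q ∣ Subring.inclusion hle a := fun a => by
      change Subring.inclusion hle a ∈ Ideal.span {q} ↔ _
      rw [Ideal.mem_span_singleton]
    intro a ha
    rcases h.prime_ideal 𝔮 with ⟨g', hg'⟩ | ⟨h2, h3⟩
    · have h4 : (⟨g, hC.gP⟩ : P) ∈ 𝔮 := (hmem _).2 hqg
      rw [hg', Ideal.mem_span_singleton] at h4
      obtain ⟨c, hc⟩ := h4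
      have h5 := (hmem a).2 ha
      rw [hg', Ideal.mem_span_singleton] at h5
      have hgp := hC.prime
      have h6 : (⟨g, hC.gP⟩ : P) ∣ g' := by
        rcases hgp.dvd_or_dvd (dvd_of_eq hc) with h7 | h7
        · exact h7
        · exfalso
          obtain ⟨d, hd⟩ := h7
          have h8 : (⟨g, hC.gP⟩ : P) * (g' * d) = ⟨g, hC.gP⟩ * 1 := by
            rw [mul_one]
            nth_rewrite 2 [hc]
            rw [hd]
            ring
          have h9 := mul_left_cancel₀ hgp.ne_zero h8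
          apply h𝔮.ne_top
          rw [hg', Ideal.span_singleton_eq_top]
          exact IsUnit.of_mul_eq_one _ h9
      obtain ⟨b, hb⟩ := h6.trans h5
      exact ⟨b, b.2, by rw [mul_comm]; exact congrArg Subtype.val hb⟩
    · exfalso
      exact hqs ((hmem ⟨s, hs⟩).1 (h.mem_of_both h2 h3 hsV))
  have hnd : ∀ b : P, Q.valuation (b : E) = 1 → ¬ q ∣ Subring.inclusion hle b := by
    intro b hb hd
    obtain ⟨c, hc, e⟩ := h1 b hd
    have h2 : Q.valuation (b : E) < 1 := by
      rw [e]
      exact val_mul_lt_right (hC.le c hc) hC.gQ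
    rw [hb] at h2
    exact lt_irrefl _ h2
  have hQT : ∀ e ∈ Q, e ∈ atq P' q hq := by
    intro e he
    obtain ⟨a, ha, b, hb, hb1, rfl⟩ := hC.frac e he
    exact ⟨⟨a, hle ha⟩, ⟨b, hle hb⟩, hnd ⟨b, hb⟩ hb1, rfl⟩
  have hinv : ∀ e : P', q ∣ e → e ≠ 0 → (e : E)⁻¹ ∉ atq P' q hq := by
    rintro e hqe he0 ⟨a, b, hb, hab⟩
    apply hb
    have he0' : (e : E) ≠ 0 := fun h0 => he0 (Subtype.ext h0)
    have hb0 : (b : E) ≠ 0 := by
      intro h0
      apply hb
      have : b = 0 := Subtype.ext h0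
      rw [this]
      exact dvd_zero _
    have e1 : b = a * e := by
      apply Subtype.ext
      push_cast
      field_simp at hab
      linear_combination hab
    rw [e1]
    exact hqe.mul_left _
  have hTQ := hC.max hQT (hinv ⟨g, hle hC.gP⟩ hqg fun h0 => hC.g0 (congrArg Subtype.val h0))
  refine ⟨fun a ha => hTQ a (le_atq _ _ _ ha), ?_⟩
  refine (lt_or_one (hTQ _ (le_atq P' q hq q.2))).resolve_right fun h2 => ?_
  exact hinv q dvd_rfl hq.ne_zero (hQT _ (inv_mem_of_one h2))

/-- The strict transform. -/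
theorem Cen.step (h : Par V P x y) (h' : Par V P' s z) (hC : Cen Q P g) (hle : P ≤ P')
    (hs : s ∈ P) (hdiv : ∀ a ∈ P, V.valuation a < 1 → ∃ b ∈ P', a = b * s) :
    (∃ u ∈ P', V.valuation u = 1 ∧ ∃ n : ℕ, g = u * s ^ n) ∨
    ∃ g', Cen Q P' g' ∧ Q.valuation s = 1 ∧ ∃ u ∈ P', V.valuation u = 1 ∧
      ∃ n : ℕ, g = u * s ^ n * g' := by
  have hU := h'.ufm
  have hg0 : (⟨g, hle hC.gP⟩ : P') ≠ 0 := fun h0 => hC.g0 (congrArg Subtype.val h0)
  by_cases hPQ : ∀ a ∈ P', a ∈ Q
  · right
    have hsQ : Q.valuation s = 1 := by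
      refine (lt_or_one (hPQ s h'.xP)).resolve_left fun h1 => ?_
      have h2 : ∀ a ∈ P, V.valuation a < 1 → ∃ b ∈ P, a = b * g := by
        intro a ha haV
        obtain ⟨b, hb, e⟩ := hdiv a ha haV
        refine hC.gen a ha ?_
        rw [e]
        exact val_mul_lt_right (hPQ b hb) h1
      obtain ⟨c, hc, ex⟩ := h2 x h.xP h.xV
      obtain ⟨d, hd, ey⟩ := h2 y h.yP h.yV
      have hgp := hC.prime
      have h3 : (⟨x, h.xP⟩ : P) ∣ ⟨c, hc⟩ * ⟨g, hC.gP⟩ := dvd_of_eq (Subtype.ext ex)
      rcases h.prime_left.dvd_or_dvd h3 with ⟨r, hr⟩ | ⟨r, hr⟩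
      · have e1 : c = x * r := congrArg Subtype.val hr
        have e2 : (⟨g, hC.gP⟩ : P) * r = 1 := by
          apply Subtype.ext
          push_cast
          rw [e1] at ex
          have := h.x0
          have h4 : x * (r * g) = x * 1 := by linear_combination -ex
          have h5 := mul_left_cancel₀ this h4
          rw [mul_comm]
          exact h5
        exact hgp.not_isUnit (IsUnit.of_mul_eq_one _ e2)
      · have e1 : g = x * r := congrArg Subtype.val hr
        refine h.not_dvd (P.mul_mem hd r.2) ?_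
        rw [ey, e1]
        ring
    let 𝔯 : Ideal P' :=
      { carrier := {a | Q.valuation (a : E) < 1}
        add_mem' := fun {a b} ha hb => val_add_lt ha hb
        zero_mem' := by
          change Q.valuation (0 : E) < 1
          rw [map_zero]
          exact zero_lt_one
        smul_mem' := fun c a ha => val_mul_lt_right (hPQ c c.2) ha }
    have hmem : ∀ a : P', a ∈ 𝔯 ↔ Q.valuation (a : E) < 1 := fun a => Iff.rfl
    have h𝔯 : 𝔯.IsPrime := by
      refine ⟨?_, ?_⟩
      · rw [Ideal.ne_top_iff_one, hmem]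
        change ¬ Q.valuation (1 : E) < 1
        rw [map_one]
        exact lt_irrefl _
      · intro a b hab
        rw [hmem] at hab ⊢
        rw [hmem]
        rcases lt_or_one (hPQ a a.2) with h1 | h1
        · exact Or.inl h1
        · right
          rcases lt_or_one (hPQ b b.2) with h2 | h2
          · exact h2
          · exfalso
            change Q.valuation ((a : E) * b) < 1 at hab
            rw [map_mul, h1, h2, one_mul] at hab
            exact lt_irrefl _ hab
    rcases h'.prime_ideal 𝔯 with ⟨g', hg'⟩ | ⟨h1, -⟩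
    · have hgg' : g' ∣ ⟨g, hle hC.gP⟩ := by
        rw [← Ideal.mem_span_singleton, ← hg', hmem]
        exact hC.gQ
      have hg'0 : g' ≠ 0 := by
        rintro rfl
        exact hg0 (zero_dvd_iff.1 hgg')
      have hg'Q : Q.valuation (g' : E) < 1 := by
        rw [← hmem, hg']
        exact Ideal.mem_span_singleton_self g'
      have hC' : Cen Q P' g' := ⟨hPQ, g'.2, hg'Q, fun h0 => hg'0 (Subtype.ext h0), by
        intro a ha haQ
        have h2 : (⟨a, ha⟩ : P') ∈ 𝔯 := haQ
        rw [hg', Ideal.mem_span_singleton] at h2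
        obtain ⟨b, hb⟩ := h2
        exact ⟨b, b.2, by rw [mul_comm]; exact congrArg Subtype.val hb⟩, by
        intro e he
        obtain ⟨a, ha, b, hb, hb1, e1⟩ := hC.frac e he
        exact ⟨a, hle ha, b, hle hb, hb1, e1⟩⟩
      obtain ⟨a, ha⟩ := hgg'
      have ha0 : a ≠ 0 := by
        rintro rfl
        rw [mul_zero] at ha
        exact hg0 ha
      obtain ⟨u, n, hu, hun⟩ := eq_unit_mul_pow h'.prime_left ha0 (by
        intro q hq hqa
        by_contra hqs
        have hqg : q ∣ ⟨g, hle hC.gP⟩ := by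
          rw [ha]
          exact hqa.mul_left _
        obtain ⟨-, hqQ⟩ := Cen.key h hC hle hs h'.xV q hq hqg hqs
        have h2 : g' ∣ q := by
          rw [← Ideal.mem_span_singleton, ← hg', hmem]
          exact hqQ
        obtain ⟨r, hr⟩ := h2.trans hqa
        -- `g = g' * (g' * r)`
        obtain ⟨a1, ha1, b1, hb1, hb1Q, e1⟩ := hC.frac g' (hPQ g' g'.2)
        have hb10 := ne_zero_of_one hb1Q
        have e2 : a1 = g' * b1 := by
          rw [e1, mul_assoc, inv_mul_cancel₀ hb10, mul_one]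
        obtain ⟨c1, hc1, e3⟩ := hC.gen a1 ha1 (by
          rw [e2]
          exact val_mul_lt_left hg'Q (hC.le b1 hb1))
        have e4 : g = g' * (g' * r) := by
          have := congrArg Subtype.val ha
          rw [hr] at this
          exact this
        have e5 : g * b1 = g * (c1 * (g' * r)) := by
          rw [e2] at e3
          calc g * b1 = (g' * b1) * (g' * r) := by rw [e4]; ring
            _ = g * (c1 * (g' * r)) := by rw [e3]; ring
        have e6 := mul_left_cancel₀ hC.g0 e5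
        have h3 : Q.valuation b1 < 1 := by
          rw [e6]
          exact val_mul_lt_right (hC.le c1 hc1) (val_mul_lt_left hg'Q (hPQ r r.2))
        rw [hb1Q] at h3
        exact lt_irrefl _ h3)
      refine ⟨g', hC', hsQ, u, u.2, (h'.isUnit_iff u).1 hu, n, ?_⟩
      have e7 : g = g' * a := congrArg Subtype.val ha
      have e8 : (a : E) = u * s ^ n := congrArg Subtype.val hun
      rw [e7, e8]
      ring
    · exfalso
      have h2 : Q.valuation s < 1 := h1
      rw [hsQ] at h2
      exact lt_irrefl _ h2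
  · left
    obtain ⟨u, n, hu, hun⟩ := eq_unit_mul_pow h'.prime_left hg0 (by
      intro q hq hqg
      by_contra hqs
      exact hPQ (Cen.key h hC hle hs h'.xV q hq hqg hqs).1)
    exact ⟨u, u.2, (h'.isUnit_iff u).1 hu, n, congrArg Subtype.val hun⟩

end Pool.Agent.N98.T2
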