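import Pool.Agent.N98.T2.Cen

/-!
Curves with finite normalization become transversal to the exceptional curve.
-/

set_option autoImplicit false
set_option linter.unusedVariables false
set_option linter.unusedSectionVars false

universe u

namespace Pool.Agent.N98.T2

open Pool.Agent.W418.LU2 Polynomial IsLocalRing

lemma integral_mem {A L : Type u} [CommRing A] [Field L] [Algebra A L] (W : ValuationSubring L)
    (hA : ∀ a : A, algebraMap A L a ∈ W) {d : L} (hd : IsIntegral A d) : d ∈ W := by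
  let f : A →+* W := (algebraMap A L).codRestrict W.toSubring hA
  have h1 : IsIntegral W d := by
    have := hd.map_of_comp_eq f (RingHom.id L) (by ext a; rfl)
    exact this
  obtain ⟨y, hy⟩ := (IsIntegrallyClosed.isIntegral_iff (R := W) (K := L)).1 h1
  rw [← hy]
  exact y.2

theorem ded {A L : Type u} [CommRing A] [IsDomain A] [IsNoetherianRing A]
    [Ring.DimensionLEOne A] [Field L] [Algebra A L] [IsFractionRing A L]
    (hfin : Module.Finite A (integralClosure A L)) (W : ValuationSubring L)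
    (hA : ∀ a : A, algebraMap A L a ∈ W)
    (hne : ∃ a : A, a ≠ 0 ∧ W.valuation (algebraMap A L a) < 1) :
    IsNoetherianRing W ∧ ∀ w ∈ W, ∃ d e : integralClosure A L, W.valuation (e : L) = 1 ∧
      w = d * (e : L)⁻¹ := by
  classical
  let D := integralClosure A L
  have hDW : ∀ d : D, (d : L) ∈ W := fun d => integral_mem W hA d.2
  have hDn : IsNoetherianRing D := IsNoetherianRing.of_finite A D
  have hD1 : Ring.DimensionLEOne D := Ring.DimensionLEOne.integralClosure A L
  have hDf : IsFractionRing D L := integralClosure.isFractionRing_of_finite_extension L L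
  have hDi : IsIntegrallyClosed D := integralClosure.isIntegrallyClosedOfFiniteExtension L
  have hDd : IsDedekindDomain D := { }
  obtain ⟨P, hP, hPW, e, he⟩ := RV.exists_center' (A := D) (algebraMap D L)
    (IsFractionRing.injective D L) (S := (algebraMap D L).range) (W := W.toSubring)
    (fun y => Iff.rfl) (loc_val W) (by
      rintro _ ⟨d, rfl⟩
      exact hDW d)
  have hSW : (algebraMap D L).range ≤ W.toSubring := by
    rintro _ ⟨d, rfl⟩
    exact hDW d
  have hP0 : P ≠ ⊥ := by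
    rintro rfl
    obtain ⟨a, ha, ha1⟩ := hne
    have h1 : algebraMap A D a ∉ (⊥ : Ideal D) := by
      rw [Ideal.mem_bot]
      intro h0
      apply ha
      apply IsFractionRing.injective A L
      rw [map_zero]
      exact congrArg (algebraMap D L) h0
    obtain ⟨h2, h3⟩ := (hPW _).1 h1
    have h4 : W.valuation (algebraMap A L a) = 1 := one_of_inv (hA a) h2 h3
    rw [h4] at ha1
    exact lt_irrefl _ ha1
  have hdvr : IsDiscreteValuationRing (Localization.AtPrime P) :=
    IsLocalization.AtPrime.isDiscreteValuationRing_of_dedekind_domain D hP0 _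
  have hWB : ∀ w ∈ W, w ∈ lo W.toSubring (algebraMap D L).range := by
    intro w hw
    by_cases hw0 : w = 0
    · rw [hw0]
      exact Subring.zero_mem _
    obtain ⟨n, d, hd, hnd⟩ := IsFractionRing.div_surjective D w
    have hd0 := nonZeroDivisors.ne_zero hd
    have hd0' : algebraMap D L d ≠ 0 := fun h =>
      hd0 (IsFractionRing.injective D L (h.trans (map_zero _).symm))
    have hn0' : algebraMap D L n ≠ 0 := by
      intro h
      apply hw0
      rw [← hnd, h, zero_div]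
    rcases ValuationRing.dvd_total (algebraMap D (Localization.AtPrime P) d)
      (algebraMap D (Localization.AtPrime P) n) with ⟨c, hc⟩ | ⟨c, hc⟩
    · have h1 := congrArg (fun z => ((e z : lo W.toSubring (algebraMap D L).range) : L)) hc
      simp only [map_mul, he, Subring.coe_mul] at h1
      have h2 : w = (e c : L) := by
        rw [← hnd, h1, mul_div_cancel_left₀ _ hd0']
      rw [h2]
      exact (e c).2
    · have h1 := congrArg (fun z => ((e z : lo W.toSubring (algebraMap D L).range) : L)) hc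
      simp only [map_mul, he, Subring.coe_mul] at h1
      have h2 : w⁻¹ = (e c : L) := by
        rw [← hnd, inv_div, h1, mul_div_cancel_left₀ _ hn0']
      have h3 : w⁻¹ ∈ lo W.toSubring (algebraMap D L).range := by
        rw [h2]
        exact (e c).2
      have h4 := inv_mem_lo hSW h3 (inv_ne_zero hw0) (by rw [inv_inv]; exact hw)
      rwa [inv_inv] at h4
  have hEq : W.toSubring = lo W.toSubring (algebraMap D L).range :=
    le_antisymm hWB (lo_le hSW)
  constructor
  · have h1 : IsNoetherianRing (lo W.toSubring (algebraMap D L).range) := by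
      have : IsNoetherianRing (Localization.AtPrime P) := inferInstance
      exact isNoetherianRing_of_ringEquiv _ e
    rw [← hEq] at h1
    exact h1
  · intro w hw
    obtain ⟨a, ⟨d, rfl⟩, b, ⟨d', rfl⟩, hb0, hbW, rfl⟩ := hWB w hw
    exact ⟨d, d', one_of_inv (hDW d') hb0 hbW, rfl⟩

/-- The conductor becomes trivial. -/
theorem desc {L : Type u} [Field L] (W : ValuationSubring L) (hWn : IsNoetherianRing W)
    (C : ℕ → Subring L) (hCW : ∀ n, ∀ a ∈ C n, a ∈ W)
    (hinv : ∀ n, ∀ a ∈ C n, W.valuation a = 1 → a⁻¹ ∈ C n) (σ : ℕ → L)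
    (hσ : ∀ n, W.valuation (σ n) < 1)
    (hdiv : ∀ n, ∀ a ∈ C n, W.valuation a < 1 → ∃ b ∈ C (n + 1), a = b * σ n)
    (D : Set L) (hD : ∀ d ∈ D, d ∈ W) (c : L) (hc0 : c ≠ 0) (hc : c ∈ C 0)
    (hcD : ∀ d ∈ D, c * d ∈ C 0) : ∃ n, ∀ d ∈ D, d ∈ C n := by
  by_contra hcon
  push Not at hcon
  have key : ∀ (I : Ideal W) (n : ℕ) (c : L) (hcn : c ∈ C n), c ≠ 0 → (∀ d ∈ D, c * d ∈ C n) →
      I = Ideal.span {(⟨c, hCW n c hcn⟩ : W)} → False := by
    intro I
    induction I using WellFoundedGT.induction with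
    | ind I ih =>
      intro n c hcn hc0 hcD hI
      rcases lt_or_one (hCW n c hcn) with h1 | h1
      · obtain ⟨b, hb, rfl⟩ := hdiv n c hcn h1
        have hb0 : b ≠ 0 := left_ne_zero_of_mul hc0
        have hσ0 : σ n ≠ 0 := right_ne_zero_of_mul hc0
        refine ih (Ideal.span {(⟨b, hCW (n + 1) b hb⟩ : W)}) ?_ (n + 1) b hb hb0 ?_ rfl
        · rw [hI]
          refine lt_of_le_of_ne ?_ ?_
          · rw [Ideal.span_singleton_le_span_singleton]
            refine ⟨⟨σ n, mem_of_lt (hσ n)⟩, Subtype.ext rfl⟩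
          · intro h2
            have h3 : (⟨b, hCW (n + 1) b hb⟩ : W) ∈
                Ideal.span {(⟨b * σ n, hCW n _ hcn⟩ : W)} := by
              rw [h2]
              exact Ideal.mem_span_singleton_self _
            rw [Ideal.mem_span_singleton] at h3
            obtain ⟨r, hr⟩ := h3
            have h4 : b = b * σ n * r := congrArg Subtype.val hr
            have h5 : b * 1 = b * (σ n * r) := by rw [mul_one, ← mul_assoc]; exact h4
            have h6 := mul_left_cancel₀ hb0 h5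
            have h7 : W.valuation (σ n * r) < 1 := val_mul_lt_left (hσ n) r.2
            rw [← h6, map_one] at h7
            exact lt_irrefl _ h7
        · intro d hd
          obtain ⟨b', hb', e⟩ := hdiv n _ (hcD d hd) (val_mul_lt_left h1 (hD d hd))
          have h2 : b * d * σ n = b' * σ n := by rw [← e]; ring
          rw [mul_right_cancel₀ hσ0 h2]
          exact hb'
      · obtain ⟨d, hd, hdn⟩ := hcon n
        apply hdn
        have e : d = c⁻¹ * (c * d) := by
          rw [← mul_assoc, inv_mul_cancel₀ hc0, one_mul]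
        rw [e]
        exact (C n).mul_mem (hinv n c hcn h1) (hcD d hd)
  exact key _ 0 c hc hc0 hcD rfl

/-- The conductor. -/
lemma exists_conductor {A L : Type u} [CommRing A] [IsDomain A] [Field L] [Algebra A L]
    [IsFractionRing A L] (hfin : Module.Finite A (integralClosure A L)) :
    ∃ c : A, c ≠ 0 ∧ ∀ d : L, IsIntegral A d → ∃ a : A, algebraMap A L a = algebraMap A L c * d := by
  classical
  obtain ⟨S, hS⟩ := Module.Finite.iff_fg.1 (show Module.Finite A
    (Subalgebra.toSubmodule (integralClosure A L)) from hfin)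
  obtain ⟨b, hb⟩ := IsLocalization.exist_integer_multiples_of_finset (nonZeroDivisors A) S
  refine ⟨b, nonZeroDivisors.ne_zero b.2, fun d hd => ?_⟩
  have h1 : d ∈ Submodule.span A (S : Set L) := by
    rw [hS]
    exact hd
  induction h1 using Submodule.span_induction with
  | mem x hx =>
    obtain ⟨a, ha⟩ := hb x hx
    refine ⟨a, ?_⟩
    rw [ha]
    change ((b : A) • x) = _
    rw [Algebra.smul_def]
  | zero => exact ⟨0, by rw [map_zero, mul_zero]⟩
  | add x y hx hy ihx ihy =>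
    have hx' : IsIntegral A x := by
      rw [hS] at hx
      exact hx
    have hy' : IsIntegral A y := by
      rw [hS] at hy
      exact hy
    obtain ⟨a, ha⟩ := ihx hx'
    obtain ⟨c, hc⟩ := ihy hy'
    exact ⟨a + c, by rw [map_add, ha, hc]; ring⟩
  | smul r x hx ih =>
    have hx' : IsIntegral A x := by
      rw [hS] at hx
      exact hx
    obtain ⟨a, ha⟩ := ih hx'
    exact ⟨r * a, by rw [map_mul, ha, Algebra.smul_def]; ring⟩

variable {E : Type u} [Field E] {V Q : ValuationSubring E} {P' : Subring E} {z f x y : E}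

lemma Nx.div {P : Subring E} {s : E} (hN : Nx V P s P') {a : E} (ha : a ∈ P)
    (h1 : V.valuation a < 1) : ∃ b ∈ P', a = b * s := by
  obtain ⟨y, h, hw, rfl⟩ := hN
  obtain ⟨b, hb, e⟩ := h.div ha h1
  exact ⟨b, le_lo _ _ hb, e⟩

lemma Nx.sP {P : Subring E} {s : E} (hN : Nx V P s P') : s ∈ P := by
  obtain ⟨y, h, hw, rfl⟩ := hN
  exact h.xP

/-- A curve which passes through all the points is transversal at some of them. -/
theorem curve {k : Type u} [CommRing k] [IsDomain k] [IsNoetherianRing k] [Algebra k E]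
    {P : ℕ → Subring E} {s : ℕ → E} (hS : Sq V P s)
    (hP0 : ∀ e, e ∈ P 0 ↔ ∃ a : k, algebraMap k E a = e) (𝔭 : Ideal k) [𝔭.IsPrime]
    (hdim : Ring.DimensionLEOne (k ⧸ 𝔭))
    (hfin : Module.Finite (k ⧸ 𝔭) (integralClosure (k ⧸ 𝔭) (FractionRing (k ⧸ 𝔭))))
    (φ : Q →+* FractionRing (k ⧸ 𝔭)) (hφ : ∀ a : Q, φ a = 0 ↔ Q.valuation (a : E) < 1)
    (hφk : ∀ a : k, pf φ (algebraMap k E a) = algebraMap (k ⧸ 𝔭) _ (Ideal.Quotient.mk _ a))
    (g : ℕ → E) (hC : ∀ n, Cen Q (P n) (g n)) (hs : ∀ n, Q.valuation (s (n + 1)) = 1) :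
    ∃ n z, Par V (P n) (g n) z := by
  classical
  let L := FractionRing (k ⧸ 𝔭)
  let C : ℕ → Subring L := fun n => im φ (P n) (hC n).le
  have hCm : ∀ n c, c ∈ C n ↔ ∃ a ∈ P n, pf φ a = c := fun n c => Iff.rfl
  have hmono : Monotone C := by
    intro n m hnm c hc
    obtain ⟨a, ha, rfl⟩ := hc
    exact ⟨a, hS.mono hnm ha, rfl⟩
  have hφ0 : ∀ a ∈ Q, pf φ a = 0 ↔ Q.valuation a < 1 := by
    intro a ha
    rw [pf_of φ ha, hφ]
  -- units
  have hu : ∀ n, ∀ a ∈ P n, V.valuation a = 1 → pf φ a ≠ 0 ∧ (pf φ a)⁻¹ ∈ C n := by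
    intro n a ha h1
    obtain ⟨z, hz⟩ := hS.par n
    have h2 := hz.inv a ha h1
    have h3 := (hC n).le a ha
    have h4 := (hC n).le _ h2
    have h5 := ne_zero_of_one h1
    have h6 : pf φ a * pf φ a⁻¹ = 1 := by
      rw [← pf_mul φ h3 h4, mul_inv_cancel₀ h5, pf_one]
    exact ⟨left_ne_zero_of_mul_eq_one h6, ⟨a⁻¹, h2, pf_inv φ h3 h5 h4⟩⟩
  let Ci : Subring L := ⨆ n, C n
  have hCi : ∀ c, c ∈ Ci ↔ ∃ n, c ∈ C n := fun c =>
    Subring.mem_iSup_of_directed hmono.directed_le
  have hle : ∀ n, C n ≤ Ci := fun n => le_iSup C n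
  have hloc : IsLocalRing Ci := by
    refine IsLocalRing.of_isUnit_or_isUnit_one_sub_self ?_
    rintro ⟨c, hc⟩
    obtain ⟨n, a, ha, rfl⟩ := (hCi c).1 hc
    obtain ⟨z, hz⟩ := hS.par n
    rcases lt_or_one (hz.le a ha) with h1 | h1
    · right
      have h2 := val_one_sub h1
      obtain ⟨h3, h4⟩ := hu n _ ((P n).sub_mem (P n).one_mem ha) h2
      have e1 : pf φ (1 - a) = 1 - pf φ a := by
        rw [pf_sub φ Q.one_mem ((hC n).le a ha), pf_one]
      rw [e1] at h3 h4
      exact isUnit_iff_exists_inv.2 ⟨⟨_, hle n h4⟩, Subtype.ext (mul_inv_cancel₀ h3)⟩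
    · left
      obtain ⟨h3, h4⟩ := hu n a ha h1
      exact isUnit_iff_exists_inv.2 ⟨⟨_, hle n h4⟩, Subtype.ext (mul_inv_cancel₀ h3)⟩
  obtain ⟨W, hW⟩ := LocalSubring.exists_le_valuationSubring
    ({ toSubring := Ci, isLocalRing := hloc } : LocalSubring L)
  obtain ⟨hCiW, hlh⟩ := LocalSubring.le_def.1 hW
  have hCW : ∀ n, ∀ c ∈ C n, c ∈ W := fun n c hc => hCiW (hle n hc)
  have hdom : ∀ n, ∀ a ∈ P n, V.valuation a < 1 → W.valuation (pf φ a) < 1 := by
    intro n a ha h1
    have hmem : pf φ a ∈ C n := ⟨a, ha, rfl⟩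
    refine (lt_or_one (hCW n _ hmem)).resolve_right fun h2 => ?_
    have h3 : IsUnit (Subring.inclusion hCiW ⟨pf φ a, hle n hmem⟩) := by
      refine isUnit_iff_exists_inv.2 ⟨⟨(pf φ a)⁻¹, inv_mem_of_one h2⟩, Subtype.ext ?_⟩
      exact mul_inv_cancel₀ (ne_zero_of_one h2)
    have h4 := hlh.map_nonunit _ h3
    obtain ⟨⟨c, hc⟩, hc1⟩ := isUnit_iff_exists_inv.1 h4
    have h5 : pf φ a * c = 1 := congrArg Subtype.val hc1
    obtain ⟨m, b, hb, rfl⟩ := (hCi c).1 hc
    have ha' : a ∈ P (max n m) := hS.mono (le_max_left n m) ha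
    have hb' : b ∈ P (max n m) := hS.mono (le_max_right n m) hb
    obtain ⟨z, hz⟩ := hS.par (max n m)
    have h6 : V.valuation (1 - a * b) = 1 :=
      val_one_sub (val_mul_lt_left h1 (hz.le b hb'))
    obtain ⟨h7, -⟩ := hu _ _ ((P _).sub_mem (P _).one_mem ((P _).mul_mem ha' hb')) h6
    apply h7
    have hCx := (hC (max n m)).le
    rw [pf_sub φ Q.one_mem (Q.mul_mem _ _ (hCx a ha') (hCx b hb')), pf_one,
      pf_mul φ (hCx a ha') (hCx b hb'), h5, sub_self]
  have hdom1 : ∀ n, ∀ a ∈ P n, V.valuation a = 1 → W.valuation (pf φ a) = 1 := by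
    intro n a ha h1
    obtain ⟨h2, h3⟩ := hu n a ha h1
    exact one_of_inv (hCW n _ ⟨a, ha, rfl⟩) h2 (hCW n _ h3)
  have hA : ∀ a : k ⧸ 𝔭, algebraMap (k ⧸ 𝔭) L a ∈ C 0 := by
    intro a
    obtain ⟨r, rfl⟩ := Ideal.Quotient.mk_surjective a
    exact ⟨algebraMap k E r, (hP0 _).2 ⟨r, rfl⟩, hφk r⟩
  have hQ0 : ∀ e, Q.valuation e = 1 → pf φ e ≠ 0 := by
    intro e he h0
    have h1 : e ∈ Q := (Q.valuation_le_one_iff e).1 he.le
    rw [hφ0 e h1, he] at h0
    exact lt_irrefl _ h0
  have hs1 := (hS.nx 0).sP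
  have hsV : ∀ n, V.valuation (s n) < 1 := fun n => by
    obtain ⟨z, hz⟩ := hS.par n
    exact hz.xV
  have hsP : ∀ n, s n ∈ P n := fun n => by
    obtain ⟨z, hz⟩ := hS.par n
    exact hz.xP
  obtain ⟨hWn, hWf⟩ := ded hfin W (fun a => hCW 0 _ (hA a)) (by
    obtain ⟨r, hr⟩ := (hP0 _).1 hs1
    refine ⟨Ideal.Quotient.mk 𝔭 r, ?_, ?_⟩
    · intro h0
      have h1 := hφk r
      rw [h0, map_zero, hr] at h1
      exact hQ0 _ (hs 0) h1
    · rw [← hφk r, hr]
      exact hdom 0 _ hs1 (hsV 1))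
  obtain ⟨c, hc0, hcD⟩ := exists_conductor hfin
  have hinv : ∀ n, ∀ c ∈ C n, W.valuation c = 1 → c⁻¹ ∈ C n := by
    rintro n _ ⟨a, ha, rfl⟩ h1
    obtain ⟨z, hz⟩ := hS.par n
    rcases lt_or_one (hz.le a ha) with h2 | h2
    · have h3 := hdom n a ha h2
      rw [h1] at h3
      exact absurd h3 (lt_irrefl _)
    · exact (hu n a ha h2).2
  obtain ⟨n, hn⟩ := desc W hWn C hCW hinv (fun n => pf φ (s (n + 1)))
    (fun n => hdom (n + 1) _ (hsP (n + 1)) (hsV (n + 1))) (by
      rintro n _ ⟨a, ha, rfl⟩ h1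
      obtain ⟨z, hz⟩ := hS.par n
      have h2 : V.valuation a < 1 := by
        refine (lt_or_one (hz.le a ha)).resolve_right fun h3 => ?_
        rw [hdom1 n a ha h3] at h1
        exact lt_irrefl _ h1
      obtain ⟨b, hb, e⟩ := (hS.nx n).div ha h2
      refine ⟨pf φ b, ⟨b, hb, rfl⟩, ?_⟩
      rw [e, pf_mul φ ((hC (n + 1)).le b hb) ((hC (n + 1)).le _ (hsP (n + 1)))])
    {d | IsIntegral (k ⧸ 𝔭) d} (fun d hd => integral_mem W (fun a => hCW 0 _ (hA a)) hd)
    (algebraMap (k ⧸ 𝔭) L c) (fun h0 => hc0 (IsFractionRing.injective (k ⧸ 𝔭) L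
      (h0.trans (map_zero _).symm))) (hA c) (by
      intro d hd
      obtain ⟨a, ha⟩ := hcD d hd
      rw [← ha]
      exact hA a)
  have hWC : ∀ w ∈ W, w ∈ C n := by
    intro w hw
    obtain ⟨d, e, he, rfl⟩ := hWf w hw
    exact (C n).mul_mem (hn d d.2) (hinv n _ (hn e e.2) he)
  -- a uniformizer
  obtain ⟨ϖ, hϖ⟩ : ∃ ϖ : W, maximalIdeal W = Ideal.span {ϖ} :=
    (IsBezout.isPrincipal_of_FG (maximalIdeal W) (IsNoetherian.noetherian _)).principal
  have hmax : ∀ w : W, w ∈ maximalIdeal W ↔ W.valuation (w : L) < 1 := by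
    intro w
    rw [← W.valuation_lt_one_iff]
  have hϖV : W.valuation (ϖ : L) < 1 := by
    rw [← hmax, hϖ]
    exact Ideal.mem_span_singleton_self ϖ
  obtain ⟨w, hw, hwϖ⟩ := hWC ϖ ϖ.2
  obtain ⟨z, hz⟩ := hS.par n
  have hwV : V.valuation w < 1 := by
    refine (lt_or_one (hz.le w hw)).resolve_right fun h3 => ?_
    have h4 := hdom1 n w hw h3
    rw [hwϖ] at h4
    rw [h4] at hϖV
    exact lt_irrefl _ hϖV
  have hdivϖ : ∀ c : L, W.valuation c < 1 → ∃ b ∈ W, c = b * ϖ := by
    intro c hc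
    have h1 : (⟨c, mem_of_lt hc⟩ : W) ∈ maximalIdeal W := (hmax _).2 hc
    rw [hϖ, Ideal.mem_span_singleton] at h1
    obtain ⟨b, hb⟩ := h1
    exact ⟨b, b.2, by rw [mul_comm]; exact congrArg Subtype.val hb⟩
  refine ⟨n, w, hz.le, hz.inv, hz.noeth, (hC n).gP, hw, ?_, hwV, (hC n).g0, ?_, ?_⟩
  · refine (lt_or_one (hz.le _ (hC n).gP)).resolve_right fun h3 => ?_
    have h4 := (hC n).gQ
    have h5 := hQ0 (g n)
    have h6 := hu n _ (hC n).gP h3
    exact h6.1 ((hφ0 _ ((hC n).le _ (hC n).gP)).2 h4)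
  · intro a ha haV
    obtain ⟨b', hb', e1⟩ := hdivϖ _ (hdom n a ha haV)
    obtain ⟨b, hb, rfl⟩ := hWC b' hb'
    have hbQ := (hC n).le b hb
    have hwQ := (hC n).le w hw
    have haQ := (hC n).le a ha
    obtain ⟨d, hd, e2⟩ := (hC n).gen (a - b * w) ((P n).sub_mem ha ((P n).mul_mem hb hw)) (by
      rw [← hφ0 _ (Q.toSubring.sub_mem haQ (Q.mul_mem _ _ hbQ hwQ)),
        pf_sub φ haQ (Q.mul_mem _ _ hbQ hwQ), pf_mul φ hbQ hwQ, e1, hwϖ, sub_self])
    exact ⟨d, hd, b, hb, by linear_combination e2⟩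
  · intro m c hc h1
    have hwQ := (hC n).le w hw
    have hcQ := (hC n).le c hc
    have h2 : Q.valuation (w ^ m) < 1 := by
      rw [h1]
      exact val_mul_lt_right hcQ (hC n).gQ
    have h3 : Q.valuation w < 1 := by
      refine (lt_or_one hwQ).resolve_right fun h4 => ?_
      rw [map_pow, h4, one_pow] at h2
      exact lt_irrefl _ h2
    have h4 := (hφ0 w hwQ).2 h3
    rw [hwϖ] at h4
    obtain ⟨b, hb, e1⟩ := hdivϖ _ (hdom 0 _ hs1 (hsV 1))
    rw [h4, mul_zero] at e1
    exact hQ0 _ (hs 0) e1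

end Pool.Agent.N98.T2
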