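import Pool.Agent.N98.T2.Dom

/-!
Along an infinite sequence of quadratic transforms, all elements become monomials.
-/

set_option autoImplicit false
set_option linter.unusedVariables false
set_option linter.unusedSectionVars false

universe u

namespace Pool.Agent.N98.T2

open Pool.Agent.W418.LU2 Polynomial IsLocalRing

variable {E : Type u} [Field E] {V Q : ValuationSubring E} {P0 : Subring E} {f x y : E}

section base

variable {k : Type u} [CommRing k] [IsDomain k] [IsNoetherianRing k] [Algebra k E]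
  [IsFractionRing k E]

/-- The isomorphism with the image. -/
noncomputable def eqv (hP0 : ∀ e, e ∈ P0 ↔ ∃ a : k, algebraMap k E a = e) : k ≃+* P0 :=
  RingEquiv.ofBijective ((algebraMap k E).codRestrict P0 fun a => (hP0 _).2 ⟨a, rfl⟩) (by
    constructor
    · intro a b hab
      exact IsFractionRing.injective k E (congrArg (Subtype.val : P0 → E) hab)
    · rintro ⟨e, he⟩
      obtain ⟨a, ha⟩ := (hP0 _).1 he
      exact ⟨a, Subtype.ext ha⟩)

lemma eqv_apply (hP0 : ∀ e, e ∈ P0 ↔ ∃ a : k, algebraMap k E a = e) (a : k) :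
    ((eqv hP0 a : P0) : E) = algebraMap k E a := rfl

lemma dim_le_one (h : Par V P0 x y) (hP0 : ∀ e, e ∈ P0 ↔ ∃ a : k, algebraMap k E a = e)
    (𝔭 : Ideal k) [𝔭.IsPrime] (g : k) (hg : Prime g) (h𝔭 : 𝔭 = Ideal.span {g}) :
    Ring.DimensionLEOne (k ⧸ 𝔭) := by
  refine ⟨fun {𝔯} h𝔯 hp => ?_⟩
  let e := eqv hP0
  let 𝔮 : Ideal k := 𝔯.comap (Ideal.Quotient.mk 𝔭)
  have h𝔮 : 𝔮.IsPrime := Ideal.IsPrime.comap _
  have h𝔮𝔭 : 𝔭 ≤ 𝔮 := by
    intro a ha
    change Ideal.Quotient.mk 𝔭 a ∈ 𝔯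
    rw [Ideal.Quotient.eq_zero_iff_mem.2 ha]
    exact 𝔯.zero_mem
  have hmap : 𝔯 = 𝔮.map (Ideal.Quotient.mk 𝔭) :=
    (Ideal.map_comap_of_surjective _ Ideal.Quotient.mk_surjective 𝔯).symm
  have h𝔮m : 𝔮.IsMaximal := by
    let 𝔮' : Ideal P0 := 𝔮.comap (e.symm : P0 →+* k)
    have h𝔮' : 𝔮'.IsPrime := Ideal.IsPrime.comap _
    have hmem : ∀ a : k, e a ∈ 𝔮' ↔ a ∈ 𝔮 := by
      intro a
      change e.symm (e a) ∈ 𝔮 ↔ _
      rw [RingEquiv.symm_apply_apply]
    rcases h.prime_ideal 𝔮' with ⟨g', hg'⟩ | ⟨h1, h2⟩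
    · exfalso
      have hge : Prime (e g) := (MulEquiv.prime_iff (e : k ≃* P0)).2 hg
      have hgm : e g ∈ 𝔮' := by
        rw [hmem]
        apply h𝔮𝔭
        rw [h𝔭]
        exact Ideal.mem_span_singleton_self g
      rw [hg', Ideal.mem_span_singleton] at hgm
      have hnu : ¬ IsUnit g' := by
        intro hu
        apply h𝔮'.ne_top
        rw [hg', Ideal.span_singleton_eq_top]
        exact hu
      have hass : Associated g' (e g) := by
        obtain ⟨c, hc⟩ := hgm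
        rcases hge.irreducible.isUnit_or_isUnit hc with h3 | h3
        · exact absurd h3 hnu
        · obtain ⟨u, rfl⟩ := h3
          exact ⟨u, hc.symm⟩
      apply h𝔯
      rw [hmap, Ideal.map_eq_bot_iff_le_ker, Ideal.mk_ker]
      intro a ha
      have h3 := (hmem a).2 ha
      rw [hg', Ideal.mem_span_singleton] at h3
      rw [h𝔭, Ideal.mem_span_singleton]
      have h4 := hass.symm.dvd.trans h3
      exact (map_dvd_iff (e : k ≃* P0)).1 h4
    · refine Ideal.isMaximal_iff.2 ⟨?_, ?_⟩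
      · intro h3
        exact h𝔮.ne_top ((Ideal.eq_top_iff_one _).2 h3)
      · intro I a hI ha haI
        have h3 : IsUnit (e a) := by
          rw [h.isUnit_iff]
          refine (lt_or_one (h.le _ (e a).2)).resolve_left fun h4 => ?_
          exact ha ((hmem a).1 (h.mem_of_both h1 h2 h4))
        have h4 : IsUnit a := by
          have := h3.map (e.symm : P0 →+* k)
          rwa [RingEquiv.coe_toRingHom, RingEquiv.symm_apply_apply] at this
        rw [I.eq_top_of_isUnit_mem haI h4]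
        trivial
  rcases Ideal.map_eq_top_or_isMaximal_of_surjective (Ideal.Quotient.mk 𝔭)
    Ideal.Quotient.mk_surjective h𝔮m with h1 | h1
  · exfalso
    rw [← hmap] at h1
    exact hp.ne_top h1
  · rw [hmap]
    exact h1

variable {P : ℕ → Subring E} {s : ℕ → E}

/-- Prime elements. -/
theorem ev_prime (hS : Sq V P s) (hP0 : ∀ e, e ∈ P 0 ↔ ∃ a : k, algebraMap k E a = e)
    (hfin : ∀ (𝔭 : Ideal k) [𝔭.IsPrime], 𝔭 ≠ ⊥ →
      Module.Finite (k ⧸ 𝔭) (integralClosure (k ⧸ 𝔭) (FractionRing (k ⧸ 𝔭))))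
    (g : k) (hg : Prime g) : Ev V P s (algebraMap k E g) := by
  classical
  have hinj : Function.Injective (algebraMap k E) := IsFractionRing.injective k E
  have hpr : (Ideal.span {g}).IsPrime := (Ideal.span_singleton_prime hg.ne_zero).2 hg
  obtain ⟨z0, hz0⟩ := hS.par 0
  have hdim := dim_le_one hz0 hP0 (Ideal.span {g}) g hg rfl
  obtain ⟨Q, φ, hφ, hφk, hQf, hQg⟩ := exists_curve_val (E := E) (Ideal.span {g}) g hg rfl
  have hC0 : Cen Q (P 0) (algebraMap k E g) := by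
    refine ⟨?_, (hP0 _).2 ⟨g, rfl⟩, ?_, ?_, ?_, ?_⟩
    · intro a ha
      obtain ⟨r, rfl⟩ := (hP0 _).1 ha
      exact (hφk r).1
    · obtain ⟨h1, h2⟩ := hφk g
      rw [Ideal.Quotient.eq_zero_iff_mem.2 (Ideal.mem_span_singleton_self g), map_zero,
        pf_of φ h1] at h2
      exact (hφ _).1 h2
    · intro h0
      exact hg.ne_zero (hinj (h0.trans (map_zero _).symm))
    · intro a ha haQ
      obtain ⟨r, rfl⟩ := (hP0 _).1 ha
      obtain ⟨c, rfl⟩ := hQg r haQ
      exact ⟨algebraMap k E c, (hP0 _).2 ⟨c, rfl⟩, by rw [map_mul, mul_comm]⟩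
    · intro e he
      obtain ⟨a, b, h1, h2⟩ := hQf e he
      exact ⟨_, (hP0 _).2 ⟨a, rfl⟩, _, (hP0 _).2 ⟨b, rfl⟩, h1, h2⟩
  by_contra hcon
  have key : ∀ n, ∃ g', Cen Q (P n) g' ∧ (Ev V P s g' → Ev V P s (algebraMap k E g)) ∧
      (n ≠ 0 → Q.valuation (s n) = 1) := by
    intro n
    induction n with
    | zero => exact ⟨_, hC0, fun h => h, fun h => absurd rfl h⟩
    | succ n ih =>
      obtain ⟨g', h1, h2, -⟩ := ih
      obtain ⟨z, hz⟩ := hS.par n
      obtain ⟨z', hz'⟩ := hS.par (n + 1)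
      have hN := hS.nx n
      rcases Cen.step hz hz' h1 hN.le hN.sP (fun a ha haV => hN.div ha haV) with
        ⟨u, hu, hu1, m, e⟩ | ⟨g'', h3, h4, u, hu, hu1, m, e⟩
      · exfalso
        apply hcon
        apply h2
        rw [e]
        exact Ev.mul hS (Ev.unit hS hu hu1) (Ev.pow hS (Ev.exc hS _) _)
      · refine ⟨g'', h3, fun h5 => h2 ?_, fun _ => h4⟩
        rw [e]
        exact Ev.mul hS (Ev.mul hS (Ev.unit hS hu hu1) (Ev.pow hS (Ev.exc hS _) _)) h5
  choose g' hg1 hg2 hg3 using key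
  obtain ⟨n, z, hnz⟩ := curve hS hP0 (Ideal.span {g}) hdim (hfin _ (by
    intro h0
    rw [Ideal.span_singleton_eq_bot] at h0
    exact hg.ne_zero h0)) φ hφ (fun a => (hφk a).2) g' hg1
    (fun n => hg3 (n + 1) (Nat.succ_ne_zero n))
  exact hcon (hg2 n (Ev.param hS hnz).1)

lemma Ev.inv (hS : Sq V P s) {f : E} (hf : Ev V P s f) : Ev V P s f⁻¹ := by
  obtain ⟨n, z, h, hm⟩ := hf
  refine ⟨n, z, h, ?_⟩
  have := Mo.zpow h hm (-1)
  rwa [zpow_neg_one] at this

/-- **All elements become monomials.** -/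
theorem ev_all (hS : Sq V P s) (hP0 : ∀ e, e ∈ P 0 ↔ ∃ a : k, algebraMap k E a = e)
    (hfin : ∀ (𝔭 : Ideal k) [𝔭.IsPrime], 𝔭 ≠ ⊥ →
      Module.Finite (k ⧸ 𝔭) (integralClosure (k ⧸ 𝔭) (FractionRing (k ⧸ 𝔭))))
    (f : E) (hf : f ≠ 0) : Ev V P s f := by
  classical
  obtain ⟨z0, hz0⟩ := hS.par 0
  have hU0 := hz0.ufm
  have hU : UniqueFactorizationMonoid k :=
    MulEquiv.uniqueFactorizationMonoid (eqv hP0 : k ≃* P 0).symm hU0
  have key : ∀ a : k, a ≠ 0 → Ev V P s (algebraMap k E a) := by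
    intro a
    induction a using UniqueFactorizationMonoid.induction_on_prime with
    | h₁ => intro h; exact absurd rfl h
    | h₂ u hu =>
      intro _
      have h1 : IsUnit (eqv hP0 u) := hu.map (eqv hP0)
      rw [hz0.isUnit_iff] at h1
      exact Ev.unit hS (n := 0) ((hP0 _).2 ⟨u, rfl⟩) h1
    | h₃ a p ha hp ih =>
      intro _
      rw [map_mul]
      exact Ev.mul hS (ev_prime hS hP0 hfin p hp) (ih ha)
  obtain ⟨a, b, hb, rfl⟩ := IsFractionRing.div_surjective k f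
  have hb0 := nonZeroDivisors.ne_zero hb
  have ha0 : a ≠ 0 := by
    rintro rfl
    apply hf
    rw [map_zero, zero_div]
  rw [div_eq_mul_inv]
  exact Ev.mul hS (key a ha0) (Ev.inv hS (key b hb0))

end base

end Pool.Agent.N98.T2
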