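import Pool.Agent.N98.T2.Ev

/-!
Two-dimensional regular local rings and discrete valuation rings: strict normal crossings.
-/

set_option autoImplicit false
set_option linter.unusedVariables false
set_option linter.unusedSectionVars false

universe u

namespace Pool.Agent.N98.T2

open Pool.Agent.W418.LU2 Polynomial IsLocalRing

variable {E : Type u} [Field E] {V : ValuationSubring E} {P P0 W : Subring E} {f x y : E}

/-- The localization at a principal prime ideal. -/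
theorem regP_principal (hPn : IsNoetherianRing P) (hW : Loc W) (hPW : P ≤ W) (𝔮 : Ideal P)
    [h𝔮p : 𝔮.IsPrime] (h𝔮 : ∀ a : P, a ∉ 𝔮 ↔ (a : E) ≠ 0 ∧ (a : E)⁻¹ ∈ W) (g : P)
    (hg : 𝔮 = Ideal.span {g}) {ι : Type} [Fintype ι] (x : ι → E) (hx0 : ∀ i, x i ≠ 0)
    (hxP : ∀ i, x i ∈ P) (hprime : ∀ i, Prime (⟨x i, hxP i⟩ : P))
    (hne : ∀ i j, i ≠ j → ¬ (⟨x i, hxP i⟩ : P) ∣ ⟨x j, hxP j⟩) : RegP W (lo W P) x := by
  classical
  have hloc : IsLocalRing (lo W P) := isLocalRing_lo hW hPW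
  have hnoeth : IsNoetherianRing (lo W P) := noeth_lo hPn hW hPW
  have hgmem : (⟨g, le_lo _ _ g.2⟩ : lo W P) ∈ maximalIdeal (lo W P) := by
    rw [mem_maximalIdeal, mem_nonunits_iff, isUnit_lo_iff hPW]
    intro h1
    have h2 : g ∉ 𝔮 := (h𝔮 g).2 h1
    apply h2
    rw [hg]
    exact Ideal.mem_span_singleton_self g
  have hmax : maximalIdeal (lo W P) = Ideal.span {⟨g, le_lo _ _ g.2⟩} := by
    apply le_antisymm
    · rintro ⟨_, a, ha, d, hd, hd0, hdW, rfl⟩ hb
      rw [mem_maximalIdeal, mem_nonunits_iff, isUnit_lo_iff hPW] at hb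
      have h1 : (⟨a, ha⟩ : P) ∈ 𝔮 := by
        by_contra h2
        obtain ⟨h3, h4⟩ := (h𝔮 ⟨a, ha⟩).1 h2
        apply hb
        refine ⟨mul_ne_zero h3 (inv_ne_zero hd0), ?_⟩
        change (a * d⁻¹)⁻¹ ∈ W
        rw [mul_inv, inv_inv]
        exact W.mul_mem h4 (hPW hd)
      rw [hg, Ideal.mem_span_singleton] at h1
      obtain ⟨c, hc⟩ := h1
      have hc' : a = g * c := congrArg Subtype.val hc
      rw [Ideal.mem_span_singleton]
      refine ⟨⟨c * d⁻¹, c, c.2, d, hd, hd0, hdW, rfl⟩, Subtype.ext ?_⟩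
      change a * d⁻¹ = g * (c * d⁻¹)
      rw [hc']
      ring
    · rw [Ideal.span_singleton_le_iff_mem]
      exact hgmem
  have hreg : IsRegularLocalRing (lo W P) := by
    have hprinc : (maximalIdeal (lo W P)).IsPrincipal := ⟨⟨_, hmax⟩⟩
    by_cases hF : IsField (lo W P)
    · let _ := hF.toField
      infer_instance
    · have h1 := (IsDiscreteValuationRing.TFAE (lo W P) hF).out 0 4
      have h2 : IsDiscreteValuationRing (lo W P) := h1.2 hprinc
      infer_instance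
  have hmx : ∀ i, (⟨x i, le_lo _ _ (hxP i)⟩ : lo W P) ∈ maximalIdeal (lo W P) →
      Associated g ⟨x i, hxP i⟩ := by
    intro i hi
    rw [mem_maximalIdeal, mem_nonunits_iff, isUnit_lo_iff hPW] at hi
    have h1 : (⟨x i, hxP i⟩ : P) ∈ 𝔮 := by
      by_contra h2
      exact hi ((h𝔮 _).1 h2)
    rw [hg, Ideal.mem_span_singleton] at h1
    obtain ⟨c, hc⟩ := h1
    rcases (hprime i).irreducible.isUnit_or_isUnit hc with h3 | h3
    · exfalso
      apply h𝔮p.ne_top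
      rw [hg, Ideal.span_singleton_eq_top]
      exact h3
    · obtain ⟨u, rfl⟩ := h3
      exact ⟨u, hc.symm⟩
  refine ⟨lo_le hPW, hx0, fun i => le_lo _ _ (hxP i), hreg,
    fun a ha h0 h1 => inv_mem_lo hPW ha h0 h1, ?_⟩
  intro c hc hs i
  by_cases hi : (⟨x i, le_lo _ _ (hxP i)⟩ : lo W P) ∈ maximalIdeal (lo W P)
  · have hj : ∀ j, j ≠ i → c j = 0 := by
      intro j hji
      apply hc
      intro hj
      have h1 := (hmx j hj).symm.trans (hmx i hi)
      exact hne j i hji h1.dvd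
    rw [Finset.sum_eq_single i (fun j _ hji => by rw [hj j hji, zero_mul])
      (fun h => absurd (Finset.mem_univ i) h)] at hs
    obtain ⟨u, hu⟩ := hmx i hi
    have hxi : (⟨x i, le_lo _ _ (hxP i)⟩ : lo W P) =
        ⟨g, le_lo _ _ g.2⟩ * ⟨(u : P), le_lo _ _ (u : P).2⟩ :=
      Subtype.ext (congrArg Subtype.val hu).symm
    have huu : IsUnit (⟨(u : P), le_lo _ _ (u : P).2⟩ : lo W P) := by
      obtain ⟨v, hv⟩ := isUnit_iff_exists_inv.1 u.isUnit
      have hv' : ((u : P) : E) * v = 1 := congrArg Subtype.val hv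
      exact isUnit_iff_exists_inv.2 ⟨⟨v, le_lo _ _ v.2⟩, Subtype.ext hv'⟩
    have hg0 : (⟨g, le_lo _ _ g.2⟩ : lo W P) ≠ 0 := by
      intro h0
      apply hx0 i
      have := congrArg Subtype.val hxi
      rw [h0, zero_mul] at this
      exact this
    rw [hmax, Ideal.span_singleton_pow, Ideal.mem_span_singleton] at hs
    obtain ⟨d, hd⟩ := hs
    change c i * ⟨x i, _⟩ = _ at hd
    rw [hxi] at hd
    have h2 : c i * ⟨(u : P), le_lo _ _ (u : P).2⟩ = ⟨g, le_lo _ _ g.2⟩ * d := by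
      apply mul_left_cancel₀ hg0
      linear_combination hd
    have h3 : c i * ⟨(u : P), le_lo _ _ (u : P).2⟩ ∈ maximalIdeal (lo W P) := by
      rw [h2]
      exact Ideal.mul_mem_right _ _ hgmem
    exact (Ideal.mul_unit_mem_iff_mem _ huu).1 h3
  · rw [hc i hi]
    exact Ideal.zero_mem _

section par

variable (h : Par V P x y)

include h

lemma Par.max_eq [IsLocalRing P] :
    maximalIdeal P = Ideal.span {(⟨x, h.xP⟩ : P), ⟨y, h.yP⟩} := by
  apply le_antisymm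
  · intro a ha
    rw [mem_maximalIdeal, mem_nonunits_iff, h.isUnit_iff] at ha
    have h1 : V.valuation (a : E) < 1 := (lt_or_one (h.le a a.2)).resolve_right ha
    exact h.mem_of_both (Ideal.subset_span (Or.inl rfl)) (Ideal.subset_span (Or.inr rfl)) h1
  · rw [Ideal.span_le]
    rintro a (rfl | ha)
    · rw [SetLike.mem_coe, mem_maximalIdeal]
      exact h.prime_left.not_isUnit
    · rw [Set.mem_singleton_iff.1 ha, SetLike.mem_coe, mem_maximalIdeal]
      exact h.prime_right.not_isUnit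

theorem Par.isRegular : IsRegularLocalRing P := by
  classical
  have hloc := h.isLocalRing
  have hN := h.noeth
  apply IsRegularLocalRing.of_spanFinrank_maximalIdeal_le
  have h1 : (maximalIdeal P).spanFinrank ≤ 2 := by
    rw [h.max_eq]
    refine (Submodule.spanFinrank_span_le_ncard_of_finite (Set.toFinite _)).trans ?_
    refine (Set.ncard_insert_le _ _).trans ?_
    rw [Set.ncard_singleton]
  have h2 : (2 : WithBot ℕ∞) ≤ ringKrullDim P := by
    have hp1 : (Ideal.span {(⟨x, h.xP⟩ : P)}).IsPrime :=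
      (Ideal.span_singleton_prime h.prime_left.ne_zero).2 h.prime_left
    let p0 : PrimeSpectrum P := ⟨⊥, Ideal.isPrime_bot⟩
    let p1 : PrimeSpectrum P := ⟨Ideal.span {(⟨x, h.xP⟩ : P)}, hp1⟩
    let p2 : PrimeSpectrum P := ⟨maximalIdeal P, inferInstance⟩
    have h01 : p0 < p1 := by
      rw [← PrimeSpectrum.asIdeal_lt_asIdeal]
      refine bot_lt_iff_ne_bot.2 fun h0 => ?_
      rw [Ideal.span_singleton_eq_bot] at h0
      exact h.prime_left.ne_zero h0
    have h12 : p1 < p2 := by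
      rw [← PrimeSpectrum.asIdeal_lt_asIdeal]
      refine lt_of_le_of_ne ?_ ?_
      · rw [Ideal.span_singleton_le_iff_mem]
        change _ ∈ maximalIdeal P
        rw [mem_maximalIdeal]
        exact h.prime_left.not_isUnit
      · intro h0
        have h3 : (⟨y, h.yP⟩ : P) ∈ maximalIdeal P := by
          rw [mem_maximalIdeal]
          exact h.prime_right.not_isUnit
        have h4 : (⟨y, h.yP⟩ : P) ∈ Ideal.span {(⟨x, h.xP⟩ : P)} := by
          change Ideal.span {(⟨x, h.xP⟩ : P)} = maximalIdeal P at h0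
          rw [h0]
          exact h3
        rw [Ideal.mem_span_singleton] at h4
        obtain ⟨c, hc⟩ := h4
        exact h.not_dvd c.2 (by rw [mul_comm]; exact congrArg Subtype.val hc)
    let S : LTSeries (PrimeSpectrum P) :=
      { length := 2
        toFun := ![p0, p1, p2]
        step := by
          intro i
          fin_cases i
          · exact h01
          · exact h12 }
    exact Order.LTSeries.length_le_krullDim S
  refine le_trans ?_ h2
  exact_mod_cast h1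

lemma Par.sq_mem [IsLocalRing P] {a : P} (ha : a ∈ maximalIdeal P ^ 2) :
    ∃ α β γ : P, a = α * (⟨x, h.xP⟩ * ⟨x, h.xP⟩) + β * (⟨x, h.xP⟩ * ⟨y, h.yP⟩) +
      γ * (⟨y, h.yP⟩ * ⟨y, h.yP⟩) := by
  rw [pow_two, h.max_eq] at ha
  refine Submodule.mul_induction_on ha ?_ ?_
  · intro m hm n hn
    obtain ⟨b, c, rfl⟩ := Ideal.mem_span_pair.1 hm
    obtain ⟨b', c', rfl⟩ := Ideal.mem_span_pair.1 hn
    exact ⟨b * b', b * c' + c * b', c * c', by ring⟩
  · rintro _ _ ⟨α, β, γ, rfl⟩ ⟨α', β', γ', rfl⟩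
    exact ⟨α + α', β + β', γ + γ', by ring⟩

theorem Par.indN [IsLocalRing P] : IndN ![(⟨x, h.xP⟩ : P), ⟨y, h.yP⟩] := by
  intro c hc hs
  rw [Fin.sum_univ_two] at hs
  obtain ⟨α, β, γ, e⟩ := h.sq_mem hs
  change c 0 * ⟨x, h.xP⟩ + c 1 * ⟨y, h.yP⟩ = _ at e
  have hX : (⟨x, h.xP⟩ : P) ∈ maximalIdeal P := by
    rw [mem_maximalIdeal]
    exact h.prime_left.not_isUnit
  have hY : (⟨y, h.yP⟩ : P) ∈ maximalIdeal P := by
    rw [mem_maximalIdeal]
    exact h.prime_right.not_isUnit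
  have hxy : ¬ (⟨x, h.xP⟩ : P) ∣ ⟨y, h.yP⟩ := by
    rintro ⟨d, hd⟩
    exact h.not_dvd d.2 (by rw [mul_comm]; exact congrArg Subtype.val hd)
  have hyx : ¬ (⟨y, h.yP⟩ : P) ∣ ⟨x, h.xP⟩ := by
    rintro ⟨d, hd⟩
    exact h.symm.not_dvd d.2 (by rw [mul_comm]; exact congrArg Subtype.val hd)
  have h0 : c 0 ∈ maximalIdeal P := by
    have h1 : (⟨y, h.yP⟩ : P) ∣ (c 0 - α * ⟨x, h.xP⟩ - β * ⟨y, h.yP⟩) * ⟨x, h.xP⟩ :=
      ⟨γ * ⟨y, h.yP⟩ - c 1, by linear_combination e⟩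
    obtain ⟨d, hd⟩ := (h.prime_right.dvd_or_dvd h1).resolve_right hyx
    have h2 : c 0 = ⟨y, h.yP⟩ * d + α * ⟨x, h.xP⟩ + β * ⟨y, h.yP⟩ := by
      rw [← hd]; ring
    rw [h2]
    exact Ideal.add_mem _ (Ideal.add_mem _ (Ideal.mul_mem_right _ _ hY)
      (Ideal.mul_mem_left _ _ hX)) (Ideal.mul_mem_left _ _ hY)
  have h1 : c 1 ∈ maximalIdeal P := by
    have h1 : (⟨x, h.xP⟩ : P) ∣ (c 1 - γ * ⟨y, h.yP⟩) * ⟨y, h.yP⟩ :=
      ⟨α * ⟨x, h.xP⟩ + β * ⟨y, h.yP⟩ - c 0, by linear_combination e⟩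
    obtain ⟨d, hd⟩ := (h.prime_left.dvd_or_dvd h1).resolve_right hxy
    have h2 : c 1 = ⟨x, h.xP⟩ * d + γ * ⟨y, h.yP⟩ := by
      rw [← hd]; ring
    rw [h2]
    exact Ideal.add_mem _ (Ideal.mul_mem_right _ _ hX) (Ideal.mul_mem_left _ _ hY)
  intro i
  fin_cases i
  · exact h0
  · exact h1

/-- Strict normal crossings. -/
theorem Par.regC : RV.RegC P ![x, y] := by
  classical
  have hN := h.noeth
  have hne : ∀ i : Fin 2, ![x, y] i ≠ 0 := by
    intro i
    fin_cases i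
    · exact h.x0
    · exact h.y0
  have hmem : ∀ i : Fin 2, ![x, y] i ∈ P := by
    intro i
    fin_cases i
    · exact h.xP
    · exact h.yP
  refine ⟨hne, hmem, fun W hW hPW ι _ f hf => ?_⟩
  refine RV.regP_comp (x := ![x, y]) ?_ f hf
  obtain ⟨𝔮, h𝔮p, h𝔮, -⟩ := RV.exists_center hW hPW
  rcases h.prime_ideal 𝔮 with ⟨g, hg⟩ | ⟨h1, h2⟩
  · refine regP_principal hN hW hPW 𝔮 h𝔮 g hg ![x, y] hne hmem ?_ ?_
    · intro i
      fin_cases i
      · exact h.prime_left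
      · exact h.prime_right
    · intro i j hij
      fin_cases i <;> fin_cases j
      · exact absurd rfl hij
      · rintro ⟨d, hd⟩
        exact h.not_dvd d.2 (by rw [mul_comm]; exact congrArg Subtype.val hd)
      · rintro ⟨d, hd⟩
        exact h.symm.not_dvd d.2 (by rw [mul_comm]; exact congrArg Subtype.val hd)
      · exact absurd rfl hij
  · have hB : lo W P = P := by
      apply le_antisymm _ (le_lo _ _)
      rintro _ ⟨a, ha, d, hd, hd0, hdW, rfl⟩
      refine P.mul_mem ha (h.inv d hd ?_)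
      refine (lt_or_one (h.le d hd)).resolve_left fun h3 => ?_
      exact (h𝔮 ⟨d, hd⟩).2 ⟨hd0, hdW⟩ (h.mem_of_both h1 h2 h3)
    rw [hB]
    have hreg := h.isRegular
    refine ⟨hPW, hne, hmem, hreg, ?_, ?_⟩
    · intro a ha h0 haW
      have := inv_mem_lo hPW (le_lo W P ha) h0 haW
      rwa [hB] at this
    · have := h.indN
      convert this using 1
      funext i
      fin_cases i <;> rfl

end par

section dv

variable (h : Dv V P x)

include h

lemma Dv.prime : Prime (⟨x, h.xP⟩ : P) := by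
  refine ⟨fun h0 => h.x0 (congrArg Subtype.val h0), not_isUnit_of_lt h.le h.xV, ?_⟩
  rintro a b ⟨c, hc⟩
  have h1 : (a : E) * b = x * c := congrArg Subtype.val hc
  have h2 : V.valuation ((a : E) * b) < 1 := by
    rw [h1]
    exact val_mul_lt_left h.xV (h.le c c.2)
  rcases lt_or_one (h.le a a.2) with h3 | h3
  · obtain ⟨d, hd, e⟩ := h.gen a a.2 h3
    exact Or.inl ⟨⟨d, hd⟩, Subtype.ext (by rw [e, mul_comm]; rfl)⟩
  · rcases lt_or_one (h.le b b.2) with h4 | h4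
    · obtain ⟨d, hd, e⟩ := h.gen b b.2 h4
      exact Or.inr ⟨⟨d, hd⟩, Subtype.ext (by rw [e, mul_comm]; rfl)⟩
    · rw [map_mul, h3, h4, one_mul] at h2
      exact absurd h2 (lt_irrefl _)

lemma Dv.isUnit_iff (a : P) : IsUnit a ↔ V.valuation (a : E) = 1 := by
  constructor
  · intro hu
    exact (lt_or_one (h.le a a.2)).resolve_left fun h1 => not_isUnit_of_lt h.le h1 hu
  · intro h1
    exact isUnit_iff_exists_inv.2 ⟨⟨_, h.inv a a.2 h1⟩, Subtype.ext
      (mul_inv_cancel₀ (ne_zero_of_one h1))⟩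

lemma Dv.mono {a : E} (ha : a ∈ P) (h0 : a ≠ 0) : ∃ u ∈ P, V.valuation u = 1 ∧
    ∃ n : ℕ, a = u * x ^ n := by
  have hN := h.noeth
  have ha0 : (⟨a, ha⟩ : P) ≠ 0 := fun h1 => h0 (congrArg Subtype.val h1)
  obtain ⟨n, b, hb, e⟩ := WfDvdMonoid.max_power_factor ha0 h.prime.irreducible
  refine ⟨b, b.2, ?_, n, by rw [mul_comm]; exact congrArg Subtype.val e⟩
  refine (lt_or_one (h.le b b.2)).resolve_left fun h1 => hb ?_
  obtain ⟨d, hd, e⟩ := h.gen b b.2 h1
  exact ⟨⟨d, hd⟩, Subtype.ext (by rw [e, mul_comm]; rfl)⟩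

lemma Dv.prime_ideal (𝔭 : Ideal P) [h𝔭 : 𝔭.IsPrime] : ∃ g, 𝔭 = Ideal.span {g} := by
  by_cases hx : (⟨x, h.xP⟩ : P) ∈ 𝔭
  · refine ⟨⟨x, h.xP⟩, le_antisymm ?_ ((Ideal.span_singleton_le_iff_mem _).2 hx)⟩
    intro a ha
    have h1 : V.valuation (a : E) < 1 := by
      refine (lt_or_one (h.le a a.2)).resolve_right fun h2 => ?_
      exact h𝔭.ne_top (𝔭.eq_top_of_isUnit_mem ha ((h.isUnit_iff a).2 h2))
    obtain ⟨d, hd, e⟩ := h.gen a a.2 h1
    rw [Ideal.mem_span_singleton]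
    exact ⟨⟨d, hd⟩, Subtype.ext (by rw [e, mul_comm]; rfl)⟩
  · refine ⟨0, ?_⟩
    rw [Ideal.span_singleton_eq_bot.2 rfl, eq_bot_iff]
    intro a ha
    rw [Ideal.mem_bot]
    by_contra h0
    obtain ⟨u, hu, hu1, n, e⟩ := h.mono a.2 (fun h1 => h0 (Subtype.ext h1))
    have e' : a = ⟨u, hu⟩ * ⟨x, h.xP⟩ ^ n := Subtype.ext e
    rw [e'] at ha
    rcases h𝔭.mem_or_mem ha with h2 | h2
    · exact h𝔭.ne_top (𝔭.eq_top_of_isUnit_mem h2 ((h.isUnit_iff _).2 hu1))
    · exact hx (h𝔭.mem_of_pow_mem n h2)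

/-- Discrete valuation rings. -/
theorem Dv.regC : RV.RegC P (fun _ : Unit => x) := by
  refine ⟨fun _ => h.x0, fun _ => h.xP, fun W hW hPW ι _ f hf => ?_⟩
  refine RV.regP_comp (x := fun _ : Unit => x) ?_ f hf
  obtain ⟨𝔮, h𝔮p, h𝔮, -⟩ := RV.exists_center hW hPW
  obtain ⟨g, hg⟩ := h.prime_ideal 𝔮
  exact regP_principal h.noeth hW hPW 𝔮 h𝔮 g hg _ (fun _ => h.x0) (fun _ => h.xP)
    (fun _ => h.prime) (fun i j hij => absurd rfl hij)

end dv

end Pool.Agent.N98.T2
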